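import Pool.Agent.R88.TG.Stm

/-!
# Project TG: greedy explorer crosses an arc from right to left
-/

set_option autoImplicit false

namespace Pool.Agent.R88.TG

namespace ARCLx

theorem greedy_mem {V : Type} {𝒢 : ℕ → SimpleGraph V} {rk : V → ℕ} {v₀ : V} {S : Set V} {v : V}
    {t : ℕ} (h : Greedy 𝒢 rk v₀ S v t) : v ∈ S := by
  cases h with
  | start => exact Set.mem_singleton _
  | next _ _ _ _ _ => exact Set.mem_insert _ _

theorem reach_le {V : Type} {𝒢 : ℕ → SimpleGraph V} {s : ℕ} {v : V} {t : ℕ} {u : V}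
    (h : Reach 𝒢 s v t u) : s ≤ t := by
  induction h with
  | refl => exact le_rfl
  | stay _ ih => omega
  | move _ _ ih => omega

theorem reach_self {V : Type} {𝒢 : ℕ → SimpleGraph V} {s : ℕ} {v : V} {t : ℕ} {u : V}
    (h : Reach 𝒢 s v t u) (ht : t ≤ s) : u = v := by
  cases h with
  | refl => rfl
  | stay h => have := reach_le h; omega
  | move h _ => have := reach_le h; omega

theorem reach_one {V : Type} {𝒢 : ℕ → SimpleGraph V} {s : ℕ} {v : V} {u : V}
    (h : Reach 𝒢 s v (s + 1) u) : u = v ∨ (𝒢 (s + 1)).Adj v u := by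
  generalize ht : s + 1 = t at h
  cases h with
  | refl => omega
  | @stay t' _ h =>
    have : t' = s := by omega
    subst this
    exact Or.inl (reach_self h le_rfl)
  | @move t' w _ h h' =>
    have : t' = s := by omega
    subst this
    have h1 := reach_self h le_rfl
    subst h1
    exact Or.inr h'

section

variable {X : Env} {p e : ℕ} (hA : X.ArcAt p e)

include hA in
/-- neighbours of an inner vertex -/
theorem adj_inner {b j : Bool} {x : ℕ} (h1 : p < x) (h2 : x < p + e) {w : ℕ × Bool}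
    (h : (X.G b).Adj (x, j) w) :
    (w.1 = x + 1 ∧ (x + 1 < p + e → w.2 = j) ∧ (x + 1 = p + e → w.2 = false)) ∨
    (w.1 + 1 = x ∧ (p < w.1 → w.2 = j) ∧ (w.1 = p + e / 2 → p < w.1 → b = !j)) := by
  obtain ⟨-, hw, h | h⟩ := h
  · left
    obtain ⟨e1, e2, e3⟩ := h
    simp only at e1 e2 e3
    refine ⟨e1, fun h4 => ?_, fun h4 => ?_⟩
    · rcases e2 with e2 | e2 | e2
      · exact e2.symm
      · exact absurd (hA.inner x h1 h2) e2
      · exact absurd (hA.inner w.1 (by omega) (by omega)) e2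
    · rcases hw.2 with h5 | h5
      · exact h5
      · rw [e1, h4] at h5
        exact absurd h5 hA.right
  · right
    obtain ⟨e1, e2, e3⟩ := h
    simp only at e1 e2 e3
    have h6 : p < w.1 → w.2 = j := by
      intro h4
      rcases e2 with e2 | e2 | e2
      · exact e2
      · exact absurd (hA.inner w.1 h4 (by omega)) e2
      · exact absurd (hA.inner x h1 h2) e2
    refine ⟨e1.symm, h6, fun h4 h5 => ?_⟩
    have h7 : X.M w.1 := (hA.mid w.1 h5.le (by omega)).2 h4
    have h8 : ¬ w.2 = b := fun h9 => e3 ⟨h7, h9⟩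
    rw [h6 h5] at h8
    cases b <;> cases j <;> simp_all

include hA in
/-- the edge to the left -/
theorem adj_left {b j : Bool} {x : ℕ} (h1 : p < x) (h2 : x + 1 < p + e)
    (h3 : x = p + e / 2 → b = !j) : (X.G b).Adj (x + 1, j) (x, j) := by
  have := hA.leW
  refine ⟨⟨by simp only; omega, Or.inr (hA.inner _ (by omega) h2)⟩,
    ⟨by simp only; omega, Or.inr (hA.inner _ h1 (by omega))⟩, Or.inr ⟨rfl, Or.inl rfl, ?_⟩⟩
  rintro ⟨h4, h5⟩
  have h6 := (hA.mid x h1.le (by omega)).1 h4
  have h7 := h3 h6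
  simp only at h5
  rw [h7] at h5
  cases j <;> simp at h5

/-- the visited set -/
def U (S : Set (ℕ × Bool)) (j : Bool) (r x : ℕ) : Set (ℕ × Bool) :=
  S ∪ {w | w.2 = j ∧ x ≤ w.1 ∧ w.1 < r}

theorem U_insert {S : Set (ℕ × Bool)} {j : Bool} {r x : ℕ} (h : x < r) :
    insert (x, j) (U S j r (x + 1)) = U S j r x := by
  ext w
  unfold U
  simp only [Set.mem_insert_iff, Set.mem_union, Set.mem_setOf_eq]
  constructor
  · rintro (h1 | h1 | ⟨h1, h2, h3⟩)
    · right
      rw [h1]
      exact ⟨rfl, le_rfl, h⟩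
    · exact Or.inl h1
    · exact Or.inr ⟨h1, by omega, h3⟩
  · rintro (h1 | ⟨h1, h2, h3⟩)
    · exact Or.inr (Or.inl h1)
    · by_cases h4 : w.1 = x
      · left
        exact Prod.ext h4 h1
      · exact Or.inr (Or.inr ⟨h1, by omega, h3⟩)

variable {ω : ℕ → Bool} {j : Bool} {v₀ : ℕ × Bool} {S : Set (ℕ × Bool)}
  (hr : (p + e, false) ∈ S) (hS : ∀ x, p + 1 ≤ x → x < p + e - 1 → (x, j) ∉ S)

include hS in
theorem not_U {x : ℕ} (h1 : p < x) (h2 : x + 1 < p + e) : (x, j) ∉ U S j (p + e) (x + 1) := by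
  rintro (h | ⟨-, h, -⟩)
  · exact hS x (by omega) (by omega) h
  · simp only at h
    omega

include hA hr in
theorem mem_U {x : ℕ} {w : ℕ × Bool} (h1 : x ≤ w.1) (h2 : w.1 ≤ p + e) (h3 : w.1 < p + e → w.2 = j)
    (h4 : w.1 = p + e → w.2 = false) : w ∈ U S j (p + e) x := by
  rcases h2.lt_or_eq with h5 | h5
  · exact Or.inr ⟨h3 h5, h1, h5⟩
  · left
    have : w = (p + e, false) := Prod.ext h5 (h4 h5)
    rw [this]
    exact hr

include hA hr hS in
/-- a step of unit cost -/
theorem unit {x t : ℕ} (h1 : p < x) (h2 : x + 1 < p + e) (h3 : x ≠ p + e / 2)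
    (h : Greedy (X.run ω) X.rk v₀ (U S j (p + e) (x + 1)) (x + 1, j) t) :
    Greedy (X.run ω) X.rk v₀ (U S j (p + e) x) (x, j) (t + 1) := by
  rw [← U_insert (by omega : x < p + e)]
  refine Greedy.next h (not_U hS h1 h2)
    (Reach.move Reach.refl (adj_left hA h1 h2 (fun h4 => absurd h4 h3))) ?_ ?_
  · intro t' ht' w hw hR
    have := reach_self hR (by omega)
    rw [this] at hw
    exact hw (greedy_mem h)
  · intro w hw hR
    rcases reach_one hR with h4 | h4
    · rw [h4] at hw
      exact absurd (greedy_mem h) hw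
    · rcases adj_inner hA (by omega) h2 h4 with ⟨g1, g2, g3⟩ | ⟨g1, g2, g3⟩
      · exact absurd (mem_U hA hr (by omega) (by omega) (fun h5 => g2 (by omega))
          (fun h5 => g3 (by omega))) hw
      · have : w = (x, j) := Prod.ext (by simp only; omega) (g2 (by omega))
        rw [this]

include hA hr hS in
/-- many steps of unit cost -/
theorem units (n : ℕ) : ∀ {x t : ℕ}, p < x → x + n < p + e →
    (∀ z, x ≤ z → z < x + n → z ≠ p + e / 2) →
    Greedy (X.run ω) X.rk v₀ (U S j (p + e) (x + n)) (x + n, j) t →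
    Greedy (X.run ω) X.rk v₀ (U S j (p + e) x) (x, j) (t + n) := by
  induction n with
  | zero => intro x t _ _ _ h; exact h
  | succ n ih =>
    intro x t h1 h2 h3 h
    have h4 : Greedy (X.run ω) X.rk v₀ (U S j (p + e) (x + 1)) (x + 1, j) (t + n) := by
      refine ih (by omega) (by omega) (fun z hz1 hz2 => h3 z (by omega) (by omega)) ?_
      have e1 : x + 1 + n = x + (n + 1) := by ring
      rw [e1]
      exact h
    exact unit hA hr hS h1 (by omega) (h3 x le_rfl (by omega)) h4

include hA hr hS in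
/-- the middle step -/
theorem middle {R T t : ℕ} (hG : Good ω R T) (he : 2 * R + 8 ≤ e) (ht : t ≤ T)
    (h : Greedy (X.run ω) X.rk v₀ (U S j (p + e) (p + e / 2 + 1)) (p + e / 2 + 1, j) t) :
    ∃ t1, t < t1 ∧ t1 ≤ t + R ∧
      Greedy (X.run ω) X.rk v₀ (U S j (p + e) (p + e / 2)) (p + e / 2, j) t1 := by
  classical
  have hex : ∃ t', t < t' ∧ ω t' = !j := by
    obtain ⟨t', h1, -, h3⟩ := hG t ht (!j)
    exact ⟨t', h1, h3⟩
  obtain ⟨hs1, hs2⟩ := Nat.find_spec hex
  set t1 := Nat.find hex with ht1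
  have hmin : ∀ t', t < t' → ω t' = (!j) → t1 ≤ t' := fun t' h1 h2 => Nat.find_min' hex ⟨h1, h2⟩
  have hle : t1 ≤ t + R := by
    obtain ⟨t', h1, h2, h3⟩ := hG t ht (!j)
    exact (hmin t' h1 h3).trans h2
  have inv : ∀ (t' : ℕ) (w : ℕ × Bool), Reach (X.run ω) t (p + e / 2 + 1, j) t' w → t' ≤ t1 →
      w.2 = j ∧ w.1 ≤ p + e / 2 + 1 + (t' - t) ∧ (p + e / 2 + 1 ≤ w.1 ∨ (t' = t1 ∧ w.1 = p + e / 2)) := by
    intro t' w hR
    induction hR with
    | refl => intro _; exact ⟨rfl, by simp only; omega, Or.inl le_rfl⟩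
    | @stay t' u hR' ih =>
      intro h1
      obtain ⟨g1, g2, g3⟩ := ih (by omega)
      refine ⟨g1, by omega, ?_⟩
      rcases g3 with g3 | g3
      · exact Or.inl g3
      · omega
    | @move t' u w hR' hadj ih =>
      intro h1
      have h2 := reach_le hR'
      obtain ⟨g1, g2, g3⟩ := ih (by omega)
      have g4 : p + e / 2 + 1 ≤ u.1 := by
        rcases g3 with g3 | g3
        · exact g3
        · omega
      have hu : u = (u.1, j) := Prod.ext rfl g1
      have hadj' : (X.G (ω (t' + 1))).Adj (u.1, j) w := by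
        rw [← hu]
        exact hadj
      rcases adj_inner hA (by omega) (by omega) hadj' with ⟨k1, k2, k3⟩ | ⟨k1, k2, k3⟩
      · exact ⟨k2 (by omega), by omega, Or.inl (by omega)⟩
      · refine ⟨k2 (by omega), by omega, ?_⟩
        by_cases h5 : w.1 = p + e / 2
        · right
          have h6 := hmin (t' + 1) (by omega) (k3 h5 (by omega))
          exact ⟨by omega, h5⟩
        · left
          omega
  refine ⟨t1, hs1, hle, ?_⟩
  rw [← U_insert (by omega : p + e / 2 < p + e)]
  refine Greedy.next h (not_U hS (by omega) (by omega)) ?_ ?_ ?_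
  · have hwait : ∀ n, Reach (X.run ω) t (p + e / 2 + 1, j) (t + n) (p + e / 2 + 1, j) := by
      intro n
      induction n with
      | zero => exact Reach.refl
      | succ n ih => exact Reach.stay ih
    have h5 := hwait (t1 - 1 - t)
    have e1 : t + (t1 - 1 - t) = t1 - 1 := by omega
    rw [e1] at h5
    have e2 : t1 - 1 + 1 = t1 := by omega
    have h6 : (X.run ω (t1 - 1 + 1)).Adj (p + e / 2 + 1, j) (p + e / 2, j) := by
      rw [e2]
      exact adj_left hA (by omega) (by omega) (fun _ => hs2)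
    have h7 := Reach.move h5 h6
    rw [e2] at h7
    exact h7
  · intro t' ht' w hw hR
    obtain ⟨g1, g2, g3⟩ := inv t' w hR ht'.le
    have g4 : p + e / 2 + 1 ≤ w.1 := by
      rcases g3 with g3 | g3
      · exact g3
      · omega
    exact hw (mem_U hA hr g4 (by omega) (fun _ => g1) (fun h5 => by omega))
  · intro w hw hR
    obtain ⟨g1, g2, g3⟩ := inv t1 w hR le_rfl
    rcases g3 with g3 | ⟨-, g3⟩
    · exact absurd (mem_U hA hr g3 (by omega) (fun _ => g1) (fun h5 => by omega)) hw
    · have : w = (p + e / 2, j) := Prod.ext g3 g1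
      rw [this]

end

end ARCLx

open ARCLx in
/-- ARCL -/
theorem sARCL : S_ARCL := by
  intro X ω R T p e j v₀ S s hG hA he hT h hr hS
  have h0 : U S j (p + e) (p + e / 2 + 1 + (e - 2 - e / 2)) = S := by
    have e1 : p + e / 2 + 1 + (e - 2 - e / 2) = p + e - 1 := by omega
    rw [e1]
    unfold U
    rw [Set.union_eq_left]
    rintro w ⟨h1, h2, h3⟩
    have : w = (p + e - 1, j) := Prod.ext (by simp only; omega) h1
    rw [this]
    exact greedy_mem h
  have h1 : Greedy (X.run ω) X.rk v₀ (U S j (p + e) (p + e / 2 + 1)) (p + e / 2 + 1, j)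
      (s + (e - 2 - e / 2)) := by
    refine units hA hr hS (e - 2 - e / 2) (by omega) (by omega) (fun z hz1 hz2 => by omega) ?_
    rw [h0]
    have e1 : p + e / 2 + 1 + (e - 2 - e / 2) = p + e - 1 := by omega
    rw [e1]
    exact h
  obtain ⟨t1, ht1, ht2, h2⟩ := middle hA hr hS hG he (by omega) h1
  have h3 : Greedy (X.run ω) X.rk v₀ (U S j (p + e) (p + 1)) (p + 1, j) (t1 + (e / 2 - 1)) := by
    refine units hA hr hS (e / 2 - 1) (by omega) (by omega) (fun z hz1 hz2 => by omega) ?_
    have e1 : p + 1 + (e / 2 - 1) = p + e / 2 := by omega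
    rw [e1]
    exact h2
  exact ⟨t1 + (e / 2 - 1), by omega, by omega, h3⟩

end Pool.Agent.R88.TG
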