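import Pool.Agent.R88.TG.Stm

/-!
# Piece ARCR: the greedy explorer crosses an arc from left to right
-/

set_option autoImplicit false

namespace Pool.Agent.R88.TG

namespace ArcR

section General
variable {V : Type} {𝒢 : ℕ → SimpleGraph V} {s : ℕ} {v : V}

theorem reach_le {t : ℕ} {u : V} (h : Reach 𝒢 s v t u) : s ≤ t := by
  induction h with
  | refl => exact le_rfl
  | stay _ ih => omega
  | move _ _ ih => omega

theorem reach_cases {t : ℕ} {u : V} (h : Reach 𝒢 s v t u) : (t = s ∧ u = v) ∨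
    ∃ t', t = t' + 1 ∧ (Reach 𝒢 s v t' u ∨ ∃ w, Reach 𝒢 s v t' w ∧ (𝒢 (t' + 1)).Adj w u) := by
  cases h with
  | refl => exact Or.inl ⟨rfl, rfl⟩
  | stay h => exact Or.inr ⟨_, rfl, Or.inl h⟩
  | move h ha => exact Or.inr ⟨_, rfl, Or.inr ⟨_, h, ha⟩⟩

theorem reach_self {u : V} (h : Reach 𝒢 s v s u) : u = v := by
  rcases reach_cases h with ⟨-, h⟩ | ⟨t', ht, h | ⟨w, h, -⟩⟩
  · exact h
  · have := reach_le h; omega
  · have := reach_le h; omega

theorem reach_succ {u : V} (h : Reach 𝒢 s v (s + 1) u) : u = v ∨ (𝒢 (s + 1)).Adj v u := by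
  rcases reach_cases h with ⟨h, -⟩ | ⟨t', ht, h | ⟨w, h, ha⟩⟩
  · omega
  · obtain rfl : t' = s := by omega
    exact Or.inl (reach_self h)
  · obtain rfl : t' = s := by omega
    rw [reach_self h] at ha
    exact Or.inr ha

theorem reach_stay (t : ℕ) (ht : s ≤ t) : Reach 𝒢 s v t v := by
  induction t, ht using Nat.le_induction with
  | base => exact Reach.refl
  | succ t _ ih => exact ih.stay

theorem greedy_mem {rk : V → ℕ} {v₀ : V} {S : Set V} {t : ℕ} (h : Greedy 𝒢 rk v₀ S v t) :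
    v ∈ S := by
  cases h with
  | start => rfl
  | next => exact Set.mem_insert _ _

/-- A greedy step of cost one. -/
theorem greedy_unit {rk : V → ℕ} {v₀ : V} {S : Set V} {t : ℕ} (h : Greedy 𝒢 rk v₀ S v t)
    {u : V} (hu : u ∉ S) (ha : (𝒢 (t + 1)).Adj v u)
    (huniq : ∀ w, w ∉ S → (𝒢 (t + 1)).Adj v w → w = u) :
    Greedy 𝒢 rk v₀ (insert u S) u (t + 1) := by
  refine Greedy.next h hu (Reach.move Reach.refl ha) ?_ ?_
  · intro t' ht' w hw hr
    have h1 := reach_le hr
    obtain rfl : t' = t := by omega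
    rw [reach_self hr] at hw
    exact hw (greedy_mem h)
  · intro w hw hr
    rcases reach_succ hr with rfl | ha'
    · exact absurd (greedy_mem h) hw
    · rw [huniq w hw ha']

end General

variable {X : Env} {p e : ℕ}

theorem arc_ok (hA : X.ArcAt p e) (j : Bool) {x : ℕ} (h1 : p < x) (h2 : x < p + e) :
    X.ok (x, j) := ⟨by have := hA.leW; simp only; omega, Or.inr (hA.inner x h1 h2)⟩

/-- The step to the right inside the arc. -/
theorem adj_right (hA : X.ArcAt p e) (j b : Bool) {x : ℕ} (h1 : p < x) (h2 : x + 1 < p + e)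
    (h3 : x = p + e / 2 → j ≠ b) : (X.G b).Adj (x, j) (x + 1, j) := by
  refine ⟨arc_ok hA j h1 (by omega), arc_ok hA j (by omega) h2, Or.inl ⟨rfl, Or.inl rfl, ?_⟩⟩
  rintro ⟨hM, hj⟩
  exact h3 ((hA.mid x h1.le (by omega)).1 hM) hj

/-- The last step. -/
theorem adj_last (hA : X.ArcAt p e) (he : 8 ≤ e) (j b : Bool) :
    (X.G b).Adj (p + e - 1, j) (p + e, false) := by
  refine ⟨arc_ok hA j (by omega) (by omega), ⟨hA.leW, Or.inl rfl⟩, Or.inl ⟨?_, Or.inr (Or.inr hA.right), ?_⟩⟩
  · simp only; omega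
  · rintro ⟨hM, hj⟩
    have := (hA.mid (p + e - 1) (by omega) (by omega)).1 hM
    omega

/-- The neighbours of a vertex of the arc. -/
theorem adj_cases (hA : X.ArcAt p e) {j b : Bool} {x : ℕ} (h1 : p < x) (h2 : x < p + e)
    {w : ℕ × Bool} (h : (X.G b).Adj (x, j) w) :
    (w.1 = x + 1 ∧ ¬ (x = p + e / 2 ∧ j = b) ∧ (x + 1 < p + e → w.2 = j) ∧
      (x + 1 = p + e → w.2 = false)) ∨
    (w.1 + 1 = x ∧ (p < w.1 → w.2 = j) ∧ (w.1 = p → w.2 = false)) := by
  obtain ⟨hok, hokw, h | h⟩ := h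
  · left
    obtain ⟨g1, g2, g3⟩ := h
    simp only at g1 g2 g3
    refine ⟨g1, ?_, ?_, ?_⟩
    · rintro ⟨hx, hj⟩
      exact g3 ⟨(hA.mid x h1.le h2).2 hx, hj⟩
    · intro h3
      rcases g2 with g2 | g2 | g2
      · exact g2.symm
      · exact absurd (hA.inner x h1 h2) g2
      · rw [g1] at g2
        exact absurd (hA.inner (x + 1) (by omega) h3) g2
    · intro h3
      rcases hokw.2 with g4 | g4
      · exact g4
      · rw [g1, h3] at g4
        exact absurd g4 hA.right
  · right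
    obtain ⟨g1, g2, g3⟩ := h
    simp only at g1 g2 g3
    refine ⟨g1.symm, ?_, ?_⟩
    · intro h3
      rcases g2 with g2 | g2 | g2
      · exact g2
      · exact absurd (hA.inner w.1 h3 (by omega)) g2
      · exact absurd (hA.inner x h1 h2) g2
    · intro h3
      rcases hokw.2 with g4 | g4
      · exact g4
      · rw [h3] at g4
        exact absurd g4 hA.left

/-- The visited set. -/
def vis (S : Set (ℕ × Bool)) (j : Bool) (a b : ℕ) : Set (ℕ × Bool) :=
  S ∪ {w | w.2 = j ∧ a ≤ w.1 ∧ w.1 ≤ b}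

theorem insert_vis (S : Set (ℕ × Bool)) (j : Bool) {a b : ℕ} (h : a ≤ b + 1) :
    insert (b + 1, j) (vis S j a b) = vis S j a (b + 1) := by
  ext ⟨x, i⟩
  simp only [vis, Set.mem_insert_iff, Set.mem_union, Set.mem_ofPred_eq, Prod.mk.injEq]
  constructor
  · rintro (⟨rfl, rfl⟩ | h | ⟨h1, h2, h3⟩)
    · exact Or.inr ⟨rfl, h, le_rfl⟩
    · exact Or.inl h
    · exact Or.inr ⟨h1, h2, by omega⟩
  · rintro (h | ⟨h1, h2, h3⟩)
    · exact Or.inr (Or.inl h)
    · by_cases hx : x = b + 1
      · exact Or.inl ⟨hx, h1⟩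
      · exact Or.inr (Or.inr ⟨h1, h2, by omega⟩)

/-- A unit step inside the arc, not at the middle edge. -/
theorem unit_step {ω : ℕ → Bool} {v₀ : ℕ × Bool} {S : Set (ℕ × Bool)} {j : Bool} {x t : ℕ}
    (hA : X.ArcAt p e) (hp : (p, false) ∈ S) (h1 : p < x) (h2 : x + 1 < p + e)
    (h3 : x ≠ p + e / 2) (hS : (x + 1, j) ∉ S)
    (hG : Greedy (X.run ω) X.rk v₀ (vis S j (p + 1) x) (x, j) t) :
    Greedy (X.run ω) X.rk v₀ (vis S j (p + 1) (x + 1)) (x + 1, j) (t + 1) := by
  rw [← insert_vis S j (by omega)]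
  refine greedy_unit hG ?_ (adj_right hA j _ h1 h2 (fun h => absurd h h3)) ?_
  · rintro (h | ⟨-, -, h⟩)
    · exact hS h
    · simp only at h; omega
  · intro w hw ha
    rcases adj_cases hA h1 (by omega) ha with ⟨g1, -, g2, -⟩ | ⟨g1, g2, g3⟩
    · exact Prod.ext g1 (g2 h2)
    · exfalso
      apply hw
      by_cases hwp : w.1 = p
      · have : w = (p, false) := Prod.ext hwp (g3 hwp)
        rw [this]
        exact Or.inl hp
      · exact Or.inr ⟨g2 (by omega), by omega, by omega⟩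

/-- The middle step. -/
theorem mid_step {ω : ℕ → Bool} {R T : ℕ} {v₀ : ℕ × Bool} {S : Set (ℕ × Bool)} {j : Bool} {s : ℕ}
    (hgood : Good ω R T) (hA : X.ArcAt p e) (he : 2 * R + 8 ≤ e) (hs : s ≤ T)
    (hS : (p + e / 2 + 1, j) ∉ S)
    (hG : Greedy (X.run ω) X.rk v₀ (vis S j (p + 1) (p + e / 2)) (p + e / 2, j) s) :
    ∃ t, s < t ∧ t ≤ s + R ∧
      Greedy (X.run ω) X.rk v₀ (vis S j (p + 1) (p + e / 2 + 1)) (p + e / 2 + 1, j) t := by
  classical
  have hex : ∃ t, s < t ∧ ω t = !j := by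
    obtain ⟨t, h1, -, h3⟩ := hgood s hs (!j)
    exact ⟨t, h1, h3⟩
  set t1 := Nat.find hex with ht1
  obtain ⟨hlt, hω⟩ := Nat.find_spec hex
  have hmin : ∀ t, s < t → t < t1 → ω t = j := by
    intro t h1 h2
    have := Nat.find_min hex h2
    by_contra hc
    apply this
    refine ⟨h1, ?_⟩
    cases hj : j <;> cases hw : ω t <;> simp_all
  have hle : t1 ≤ s + R := by
    obtain ⟨t, h1, h2, h3⟩ := hgood s hs (!j)
    exact (Nat.find_min' hex ⟨h1, h3⟩).trans h2
  -- the invariant
  have inv : ∀ t w, Reach (X.run ω) s (p + e / 2, j) t w → t < t1 →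
      w.2 = j ∧ w.1 ≤ p + e / 2 ∧ p + e / 2 + s ≤ w.1 + t := by
    intro t w h
    induction h with
    | refl => intro _; exact ⟨rfl, le_rfl, le_rfl⟩
    | stay h ih =>
      intro ht
      obtain ⟨g1, g2, g3⟩ := ih (by omega)
      exact ⟨g1, g2, by omega⟩
    | @move t u w h ha ih =>
      intro ht
      obtain ⟨g1, g2, g3⟩ := ih (by omega)
      have hst := reach_le h
      have hb : ω (t + 1) = j := hmin _ (by omega) ht
      have ha' : (X.G (ω (t + 1))).Adj (u.1, j) w := by
        have : u = (u.1, j) := Prod.ext rfl g1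
        rw [← this]; exact ha
      rw [hb] at ha'
      rcases adj_cases hA (by omega) (by omega) ha' with ⟨k1, k2, k3, -⟩ | ⟨k1, k2, k3⟩
      · have hne : u.1 ≠ p + e / 2 := fun h => k2 ⟨h, rfl⟩
        exact ⟨k3 (by omega), by omega, by omega⟩
      · exact ⟨k2 (by omega), by omega, by omega⟩
  have hin : ∀ t w, Reach (X.run ω) s (p + e / 2, j) t w → t < t1 →
      w ∈ vis S j (p + 1) (p + e / 2) := by
    intro t w h ht
    obtain ⟨g1, g2, g3⟩ := inv t w h ht
    exact Or.inr ⟨g1, by omega, g2⟩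
  refine ⟨t1, hlt, hle, ?_⟩
  rw [← insert_vis S j (by omega)]
  refine Greedy.next hG ?_ ?_ ?_ ?_
  · rintro (h | ⟨-, -, h⟩)
    · exact hS h
    · simp only at h; omega
  · obtain ⟨t0, ht0⟩ : ∃ t0, t1 = t0 + 1 := ⟨t1 - 1, by omega⟩
    rw [ht0]
    refine Reach.move (reach_stay t0 (by omega)) ?_
    refine adj_right hA j _ (by omega) (by omega) (fun _ => ?_)
    rw [← ht0, hω]
    cases j <;> simp
  · intro t' ht' w hw hr
    exact hw (hin t' w hr ht')
  · intro w hw hr
    rcases reach_cases hr with ⟨h, -⟩ | ⟨t', ht', h | ⟨u, h, ha⟩⟩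
    · omega
    · exact absurd (hin t' w h (by omega)) hw
    · obtain ⟨g1, g2, g3⟩ := inv t' u h (by omega)
      have ha' : (X.G (ω (t' + 1))).Adj (u.1, j) w := by
        have : u = (u.1, j) := Prod.ext rfl g1
        rw [← this]; exact ha
      have hwe : w = (p + e / 2 + 1, j) := by
        rcases adj_cases hA (by omega) (by omega) ha' with ⟨k1, k2, k3, -⟩ | ⟨k1, k2, k3⟩
        · by_cases hu : u.1 = p + e / 2
          · exact Prod.ext (by simp only; omega) (k3 (by omega))
          · exfalso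
            apply hw
            exact Or.inr ⟨k3 (by omega), by omega, by omega⟩
        · exfalso
          apply hw
          exact Or.inr ⟨k2 (by omega), by omega, by omega⟩
      rw [hwe]

end ArcR

open ArcR

/-- Piece ARCR. -/
theorem sARCR : S_ARCR := by
  intro X ω R T p e j v₀ S s hgood hA he hT hG hp hS hlast
  have hvis0 : vis S j (p + 1) (p + 1) = S := by
    ext ⟨x, i⟩
    simp only [vis, Set.mem_union, Set.mem_ofPred_eq]
    constructor
    · rintro (h | ⟨rfl, h2, h3⟩)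
      · exact h
      · obtain rfl : x = p + 1 := by omega
        exact greedy_mem hG
    · exact Or.inl
  -- phase 1
  have ph1 : ∀ i, p + 1 + i ≤ p + e / 2 →
      Greedy (X.run ω) X.rk v₀ (vis S j (p + 1) (p + 1 + i)) (p + 1 + i, j) (s + i) := by
    intro i
    induction i with
    | zero => intro _; rw [add_zero, add_zero, hvis0]; exact hG
    | succ i ih =>
      intro hi
      exact unit_step (x := p + 1 + i) (t := s + i) hA hp (by omega) (by omega) (by omega)
        (hS _ (by omega) (by omega)) (ih (by omega))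
  have hm := ph1 (e / 2 - 1) (by omega)
  have e1 : p + 1 + (e / 2 - 1) = p + e / 2 := by omega
  rw [e1] at hm
  obtain ⟨t1, h1, h2, h3⟩ := mid_step hgood hA he (by omega) (hS _ (by omega) (by omega)) hm
  -- phase 2
  have ph2 : ∀ i, p + e / 2 + 1 + i < p + e →
      Greedy (X.run ω) X.rk v₀ (vis S j (p + 1) (p + e / 2 + 1 + i)) (p + e / 2 + 1 + i, j)
        (t1 + i) := by
    intro i
    induction i with
    | zero => intro _; exact h3
    | succ i ih =>
      intro hi
      exact unit_step (x := p + e / 2 + 1 + i) (t := t1 + i) hA hp (by omega) (by omega) (by omega)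
        (hS _ (by omega) (by omega)) (ih (by omega))
  have hl := ph2 (e - 1 - (e / 2 + 1)) (by omega)
  have e2 : p + e / 2 + 1 + (e - 1 - (e / 2 + 1)) = p + e - 1 := by omega
  rw [e2] at hl
  have hfin := greedy_unit hl (u := (p + e, false)) (by
    rintro (h | ⟨-, -, h⟩)
    · exact hlast h
    · simp only at h; omega) (adj_last hA (by omega) j _) (by
    intro w hw ha
    rcases adj_cases hA (by omega) (by omega) ha with ⟨k1, -, -, k3⟩ | ⟨k1, k2, k3⟩
    · exact Prod.ext (by simp only; omega) (k3 (by omega))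
    · exfalso
      apply hw
      exact Or.inr ⟨k2 (by omega), by omega, by omega⟩)
  have hset : insert (p + e, false) (vis S j (p + 1) (p + e - 1)) =
      S ∪ {w | (w.2 = j ∧ p + 1 ≤ w.1 ∧ w.1 < p + e) ∨ w = (p + e, false)} := by
    ext w
    simp only [vis, Set.mem_insert_iff, Set.mem_union, Set.mem_ofPred_eq]
    constructor
    · rintro (h | h | ⟨h1, h2, h3⟩)
      · exact Or.inr (Or.inr h)
      · exact Or.inl h
      · exact Or.inr (Or.inl ⟨h1, h2, by omega⟩)
    · rintro (h | ⟨h1, h2, h3⟩ | h)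
      · exact Or.inr (Or.inl h)
      · exact Or.inr (Or.inr ⟨h1, h2, by omega⟩)
      · exact Or.inl h
  rw [hset] at hfin
  exact ⟨_, by omega, by omega, hfin⟩

end Pool.Agent.R88.TG
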