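import Pool.Agent.R88.TG.Node

set_option autoImplicit false

namespace Pool.Agent.R88.TG

open MeasureTheory

theorem run_all (hS : S_SGL) (hD : S_DBL) (hN : S_NODE) (X : Env) (ω : ℕ → Bool) (R T g : ℕ)
    (hG : Good ω R T) : ∀ F : Sh, F.gs g → R * (F.nd + 3) + 10 ≤ g → RunStm X ω R T F := by
  intro F
  induction F with
  | sgl L => intro h1 _; exact hS X ω R T L h1
  | dbl L =>
    intro h1 h2
    have h1' : g ≤ L := h1
    have h3 : R * (Sh.nd (.dbl L) + 3) = 4 * R := by simp only [Sh.nd]; ring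
    exact hD X ω R T L hG (by omega)
  | node A e B ihA ihB =>
    intro h1 h2
    have hA : R * (A.nd + 3) ≤ R * (Sh.nd (.node A e B) + 3) := by
      apply Nat.mul_le_mul_left; simp only [Sh.nd]; omega
    have hB : R * (B.nd + 3) ≤ R * (Sh.nd (.node A e B) + 3) := by
      apply Nat.mul_le_mul_left; simp only [Sh.nd]; omega
    exact hN X ω R T g A B e hG h1 h2 (ihA h1.1 (by omega)) (ihB h1.2.1 (by omega))

theorem fin_ok (X : Env) : ∃ (n : ℕ) (f : Fin n → ℕ × Bool), Function.Injective f ∧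
    (∀ p, X.ok p ↔ ∃ v, f v = p) ∧ X.W + 1 ≤ n := by
  classical
  have hfin : {p : ℕ × Bool | X.ok p}.Finite := by
    refine Set.Finite.subset ((Set.finite_Iic X.W).prod (Set.finite_univ (α := Bool))) ?_
    rintro ⟨x, b⟩ h
    exact ⟨h.1, Set.mem_univ _⟩
  haveI : Finite {p : ℕ × Bool | X.ok p} := hfin.to_subtype
  obtain ⟨n, ⟨e⟩⟩ := Finite.exists_equiv_fin {p : ℕ × Bool | X.ok p}
  refine ⟨n, fun i => (e.symm i).1, ?_, ?_, ?_⟩
  · intro i j hij
    exact e.symm.injective (Subtype.ext hij)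
  · intro p
    constructor
    · intro h
      exact ⟨e ⟨p, h⟩, by simp⟩
    · rintro ⟨v, rfl⟩
      exact (e.symm v).2
  · have hinj : Function.Injective
        (fun i : Fin (X.W + 1) => e ⟨((i : ℕ), false), by
          exact ⟨by simp only; omega, Or.inl rfl⟩⟩) := by
      intro i j hij
      have := e.injective hij
      have h2 := congrArg (fun z : {p : ℕ × Bool | X.ok p} => z.1.1) this
      exact Fin.ext h2
    have := Fintype.card_le_of_injective _ hinj
    simpa using this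

/-- the greedy exploration time is `τ` -/
def GreedyTime {V : Type} (𝒢 : ℕ → SimpleGraph V) (rk : V → ℕ) (v₀ : V) (τ : ℕ) : Prop :=
  ∃ v, Greedy 𝒢 rk v₀ Set.univ v τ

/-- `texp 𝒢 = t` -/
def IsTexp {V : Type} (𝒢 : ℕ → SimpleGraph V) (t : ℕ) : Prop :=
  Explores 𝒢 t ∧ ∀ t' < t, ¬ Explores 𝒢 t'

theorem det (hS : S_SGL) (hD : S_DBL) (hN : S_NODE) (h1 : S_FIT1) (hEX : S_EX) (hTRG : S_TRG)
    (F : Sh) (g R T n : ℕ) (f : Fin n → ℕ × Bool) (hf : Function.Injective f)
    (hf' : ∀ p, (envOf F).ok p ↔ ∃ v, f v = p) (ω : ℕ → Bool) (hG : Good ω R T)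
    (hgs : F.gs g) (hg : R * (F.nd + 3) + 10 ≤ g) (hT : F.uo R ≤ T)
    (hT' : 2 * F.wd + 2 * R * F.nd ≤ T) (v₀ : Fin n) (hv₀ : f v₀ = (0, false)) :
    (∃ τ, F.co ≤ τ ∧ GreedyTime (fun i => ((envOf F).G (ω i)).comap f)
      (fun u => (envOf F).rk (f u)) v₀ τ) ∧
    Explores (fun i => ((envOf F).G (ω i)).comap f) (2 * F.wd + 2 * R * F.nd) := by
  have h10 : 10 ≤ g := le_trans (Nat.le_add_left _ _) hg
  obtain ⟨f1, f2, f3, f4⟩ := h1 F g hgs h10
  have hfit : (envOf F).Fits 0 F :=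
    ⟨by rw [zero_add]; exact le_rfl, fun x _ _ => ⟨Iff.rfl, Iff.rfl, Iff.rfl⟩⟩
  constructor
  · obtain ⟨t, i, ht, -, hgr⟩ := run_all hS hD hN (envOf F) ω R T g hG F hgs hg 0 hfit
      (fun h => by
        have := h.1
        simp only [envOf] at this
        omega) (0, false) {(0, false)} 0 (by omega) Greedy.start
      (by
        rintro ⟨x, b⟩ h3 h4 h5
        have := congrArg Prod.fst h5
        simp only at this h3
        omega)
      (by
        rintro w _ h3 _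
        omega)
    rw [← hv₀] at hgr
    obtain ⟨v', -, hgr'⟩ := hTRG (envOf F) ω n f hf hf' v₀ _ _ _ hgr
    refine ⟨t, by omega, v', ?_⟩
    refine greedy_cast hgr' ?_
    ext u
    refine ⟨fun _ => ?_, fun _ => Set.mem_univ _⟩
    have hu : (envOf F).ok (f u) := (hf' _).2 ⟨u, rfl⟩
    rcases Nat.eq_zero_or_pos (f u).1 with h5 | h5
    · left
      rw [hv₀]
      rcases hu.2 with h6 | h6
      · exact Prod.ext h5 h6
      · exfalso
        have h7 : F.dd 0 (f u).1 := h6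
        rw [h5] at h7
        have := (f4 0 0).1 h7
        omega
    · right
      refine ⟨hu, h5, ?_⟩
      have := hu.1
      rw [zero_add]
      exact this
  · obtain ⟨x, hx1, hx2, hx3⟩ := hEX (envOf F) ω R T g F hG hfit rfl hgs h10 hT'
    choose y hy using fun i => (hf' (x i)).1 (hx2 i)
    refine ⟨y, ?_, ?_⟩
    · intro i hi
      rcases hx1 i hi with h | h
      · left
        apply hf
        rw [hy, hy, h]
      · right
        rw [SimpleGraph.comap_adj, hy, hy]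
        exact h
    · intro v
      obtain ⟨i, hi, hxi⟩ := hx3 (f v) ((hf' _).2 ⟨v, rfl⟩)
      exact ⟨i, hi, hf (by rw [hy, hxi])⟩

theorem main (hS : S_SGL) (hD : S_DBL) (hN : S_NODE) (h1 : S_FIT1) (hEX : S_EX) (hTRG : S_TRG)
    (hTREE : S_TREE) (hPROB : S_PROB) (hNUM : S_NUM) (hLIM : S_LIM) (hRKI : S_RKI)
    (C : ℝ) (δ : ENNReal) (hδ : δ ≠ 0) (N : ℕ) :
    ∃ n, N ≤ n ∧ ∃ (μ : PMF (SimpleGraph (Fin n))), (∀ G ∈ μ.support, G.IsTree) ∧
      ∃ (v₀ : Fin n) (rk : Fin n → ℕ), Function.Injective rk ∧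
        law μ {𝒢 | ∀ τ t, GreedyTime 𝒢 rk v₀ τ → IsTexp 𝒢 t → (τ : ℝ) ≤ C * t} ≤ δ := by
  classical
  obtain ⟨k, hk⟩ := exists_nat_gt (max (15 * |C|) 1)
  have hk1 : 1 ≤ k := by
    have : (1 : ℝ) < k := lt_of_le_of_lt (le_max_right _ _) hk
    exact_mod_cast this.le
  have hkC : 15 * |C| < k := lt_of_le_of_lt (le_max_left _ _) hk
  obtain ⟨K, R₀, hnum⟩ := hNUM k hk1
  obtain ⟨R₁, hlim⟩ := hLIM K δ hδ
  set R := max (max R₀ R₁) N with hRdef
  have hR0 : R₀ ≤ R := le_trans (le_max_left _ _) (le_max_left _ _)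
  have hR1 : R₁ ≤ R := le_trans (le_max_right _ _) (le_max_left _ _)
  have hRN : N ≤ R := le_max_right _ _
  obtain ⟨hR1', A, B, e, g, hF, hgs, hg, hnd, hco, huo, hwd, hRwd⟩ := hnum R hR0
  obtain ⟨F, hFdef⟩ : ∃ F, F = RL k true (R ^ 2) := ⟨_, rfl⟩
  rw [← hFdef] at hF hgs hg hnd hco huo hwd hRwd
  have h10 : 10 ≤ g := le_trans (Nat.le_add_left _ _) hg
  obtain ⟨f1, f2, f3, f4⟩ := h1 F g hgs h10
  obtain ⟨n, f, hf, hf', hn⟩ := fin_ok (envOf F)
  have hfit : (envOf F).Fits 0 F :=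
    ⟨by rw [zero_add]; exact le_rfl, fun x _ _ => ⟨Iff.rfl, Iff.rfl, Iff.rfl⟩⟩
  have hW : (envOf F).W = F.wd := rfl
  rw [hW] at hn
  refine ⟨n, by omega, (PMF.uniformOfFintype Bool).map
    (fun b => ((envOf F).G b).comap f), ?_, ?_⟩
  · intro G hGs
    rw [PMF.mem_support_map_iff] at hGs
    obtain ⟨b, -, rfl⟩ := hGs
    exact hTREE (envOf F) g F hfit rfl hgs h10 b n f hf hf'
  obtain ⟨v₀, hv₀⟩ := (hf' (0, false)).1 ⟨Nat.zero_le _, Or.inl rfl⟩
  refine ⟨v₀, fun u => (envOf F).rk (f u), ?_, ?_⟩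
  · intro u v huv
    exact hf (hRKI (envOf F) _ _ ((hf' _).2 ⟨u, rfl⟩) ((hf' _).2 ⟨v, rfl⟩) huv)
  · have hne : (fun b => ((envOf F).G b).comap f) false ≠
        (fun b => ((envOf F).G b).comap f) true := by
      intro heq
      have hle : A.wd + e / 2 + 1 ≤ F.wd := by
        rw [hF]; rw [hF] at hgs
        have hge : g ≤ e := hgs.2.2.1
        simp only [Sh.wd]; omega
      obtain ⟨u, hu⟩ := (hf' (A.wd + e / 2, false)).1 ⟨by simp only [hW]; omega, Or.inl rfl⟩
      obtain ⟨v, hv⟩ := (hf' (A.wd + e / 2 + 1, false)).1 ⟨by simp only [hW]; omega, Or.inl rfl⟩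
      have hM : (envOf F).M (A.wd + e / 2) := by
        rw [hF]
        exact Or.inr (Or.inl (by omega))
      have hadj : (((envOf F).G true).comap f).Adj u v := by
        rw [SimpleGraph.comap_adj, hu, hv]
        refine ⟨⟨by simp only [hW]; omega, Or.inl rfl⟩, ⟨by simp only [hW]; omega, Or.inl rfl⟩,
          Or.inl ⟨rfl, Or.inl rfl, ?_⟩⟩
        rintro ⟨-, h⟩
        exact Bool.false_ne_true h
      have heq' : ((envOf F).G false).comap f = ((envOf F).G true).comap f := heq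
      rw [← heq', SimpleGraph.comap_adj, hu, hv] at hadj
      rcases hadj.2.2 with h | h
      · exact h.2.2 ⟨hM, rfl⟩
      · have := h.1
        simp only at this
        omega
    set T := F.uo R + 3 * F.wd with hTdef
    have hprob := hPROB n (fun b => ((envOf F).G b).comap f) hne R T
    refine le_trans (measure_mono ?_) (le_trans hprob (le_trans ?_ (hlim R hR1)))
    · intro 𝒢 h𝒢 hex
      obtain ⟨ω, hω, hgood⟩ := hex
      have h𝒢' : 𝒢 = fun i => ((envOf F).G (ω i)).comap f := funext hω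
      subst h𝒢'
      have hT' : 2 * F.wd + 2 * R * F.nd ≤ T := by omega
      obtain ⟨⟨τ, hτ, hgt⟩, hexp⟩ := det hS hD hN h1 hEX hTRG F g R T n f hf hf' ω hgood hgs hg
        (by omega) hT' v₀ hv₀
      have hex2 : ∃ t, Explores (fun i => ((envOf F).G (ω i)).comap f) t := ⟨_, hexp⟩
      have hmin : IsTexp (fun i => ((envOf F).G (ω i)).comap f) (Nat.find hex2) :=
        ⟨Nat.find_spec hex2, fun t' ht' => Nat.find_min hex2 ht'⟩
      have hle : Nat.find hex2 ≤ 3 * F.wd := le_trans (Nat.find_min' hex2 hexp) (by omega)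
      have hfin := h𝒢 τ _ hgt hmin
      have hle' : ((Nat.find hex2 : ℕ) : ℝ) ≤ 3 * F.wd := by exact_mod_cast hle
      have hτ' : ((k : ℝ) * F.wd) ≤ 5 * τ := by
        have : k * F.wd ≤ 5 * τ := le_trans hco (by omega)
        exact_mod_cast this
      have hC : C * (Nat.find hex2 : ℕ) ≤ |C| * (3 * F.wd) :=
        le_trans (mul_le_mul_of_nonneg_right (le_abs_self C) (Nat.cast_nonneg _))
          (mul_le_mul_of_nonneg_left hle' (abs_nonneg C))
      have hwd0 : (1 : ℝ) ≤ F.wd := by exact_mod_cast f1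
      nlinarith
    · have h4 : T ≤ 4 * K * R ^ 2 := by
        have : 4 * K * R ^ 2 = 4 * (K * R ^ 2) := by ring
        omega
      gcongr

end Pool.Agent.R88.TG
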