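import Mathlib

/-!
# Greedy temporal exploration: definitions (project TG, MP_041baa_co)
-/

set_option autoImplicit false

namespace Pool.Agent.R88.TG

section General

variable {V : Type}

/-- `Reach 𝒢 s v t u`: some temporal walk from `v` to `u` uses only time steps in `{s+1,…,t}`
(one edge of the current snapshot `𝒢 i` at most per time step `i`). -/
inductive Reach (𝒢 : ℕ → SimpleGraph V) (s : ℕ) (v : V) : ℕ → V → Prop
  | refl : Reach 𝒢 s v s v
  | stay {t : ℕ} {u : V} : Reach 𝒢 s v t u → Reach 𝒢 s v (t + 1) u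
  | move {t : ℕ} {u w : V} : Reach 𝒢 s v t u → (𝒢 (t + 1)).Adj u w → Reach 𝒢 s v (t + 1) w

/-- `Greedy 𝒢 rk v₀ S v t`: greedy exploration started at `v₀` at time `0`, with ties broken in
favour of the vertex of least rank `rk`, is at the vertex `v` at time `t` with set of visited
vertices `S`, just after visiting `v` for the first time. -/
inductive Greedy (𝒢 : ℕ → SimpleGraph V) (rk : V → ℕ) (v₀ : V) : Set V → V → ℕ → Prop
  | start : Greedy 𝒢 rk v₀ {v₀} v₀ 0
  | next {S : Set V} {v u : V} {s t : ℕ} : Greedy 𝒢 rk v₀ S v s → u ∉ S → Reach 𝒢 s v t u →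
      (∀ t' < t, ∀ w, w ∉ S → ¬ Reach 𝒢 s v t' w) →
      (∀ w, w ∉ S → Reach 𝒢 s v t w → rk u ≤ rk w) → Greedy 𝒢 rk v₀ (insert u S) u t

/-- `Explores 𝒢 t`: some temporal walk using only the snapshots `𝒢 1, …, 𝒢 t` visits every
vertex; `x i` is the position of the explorer at time `i`. -/
def Explores (𝒢 : ℕ → SimpleGraph V) (t : ℕ) : Prop :=
  ∃ x : ℕ → V, (∀ i < t, x (i + 1) = x i ∨ (𝒢 (i + 1)).Adj (x i) (x (i + 1))) ∧
    ∀ v, ∃ i ≤ t, x i = v

end General

/-- The discrete measurable structure on the (finite) set of graphs on `V`. -/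
instance instMSG (V : Type) : MeasurableSpace (SimpleGraph V) := ⊤

/-- The law of the temporal graph whose snapshots are independent samples from `μ`. -/
noncomputable def law {V : Type} (μ : PMF (SimpleGraph V)) :
    MeasureTheory.Measure (ℕ → SimpleGraph V) :=
  MeasureTheory.Measure.infinitePi (fun _ : ℕ => μ.toMeasure)

/-! ### The environment: a necklace of paths and bigons -/

/-- `W`: last position; `D x`: position `x` carries two vertices `(x,false)`, `(x,true)`;
`M x`: the edges from `x` to `x+1` are middle edges of a bigon; `E x`: `x` is an inner position of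
a connecting bigon. -/
structure Env where
  W : ℕ
  D : ℕ → Prop
  M : ℕ → Prop
  E : ℕ → Prop

/-- the vertices -/
def Env.ok (X : Env) (p : ℕ × Bool) : Prop := p.1 ≤ X.W ∧ (p.2 = false ∨ X.D p.1)

/-- edge from `p` to the right to `q`, in the tree with index `b` -/
def Env.hs (X : Env) (b : Bool) (p q : ℕ × Bool) : Prop :=
  q.1 = p.1 + 1 ∧ (p.2 = q.2 ∨ ¬ X.D p.1 ∨ ¬ X.D q.1) ∧ ¬ (X.M p.1 ∧ p.2 = b)

/-- The tree with index `b` (on the ambient set of vertices; the vertices that are not `ok` are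
isolated). -/
def Env.G (X : Env) (b : Bool) : SimpleGraph (ℕ × Bool) where
  Adj p q := X.ok p ∧ X.ok q ∧ (X.hs b p q ∨ X.hs b q p)
  symm := ⟨by
    rintro p q ⟨h1, h2, h3⟩
    exact ⟨h2, h1, h3.symm⟩⟩
  loopless := ⟨by
    rintro p ⟨-, -, h | h⟩
    · exact absurd h.1 (by omega)
    · exact absurd h.1 (by omega)⟩

open Classical in
/-- the tie-breaking order: inner positions of leaf bigons first, then single positions, then
inner positions of connecting bigons; inside each class from left to right -/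
noncomputable def Env.rk (X : Env) (p : ℕ × Bool) : ℕ :=
  (if X.E p.1 then 2 else if X.D p.1 then 0 else 1) * (2 * X.W + 2) + 2 * p.1 +
    (if p.2 = true then 1 else 0)

/-- the temporal graph with tree indices `ω` -/
def Env.run (X : Env) (ω : ℕ → Bool) : ℕ → SimpleGraph (ℕ × Bool) := fun t => X.G (ω t)

/-- every window of length `R` starting up to time `T` contains both trees -/
def Good (ω : ℕ → Bool) (R T : ℕ) : Prop := ∀ s ≤ T, ∀ b, ∃ t, s < t ∧ t ≤ s + R ∧ ω t = b

/-- the positions `p, …, p+e` form a bigon with middle position `p + e/2` -/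
structure Env.ArcAt (X : Env) (p e : ℕ) : Prop where
  leW : p + e ≤ X.W
  left : ¬ X.D p
  right : ¬ X.D (p + e)
  inner : ∀ x, p < x → x < p + e → X.D x
  mid : ∀ x, p ≤ x → x < p + e → (X.M x ↔ x = p + e / 2)

/-! ### Shapes -/

/-- shapes: a single path of length `L`; a leaf bigon with arcs of length `L`; two shapes joined by
a connecting bigon with arcs of length `e` -/
inductive Sh
  | sgl (L : ℕ)
  | dbl (L : ℕ)
  | node (A : Sh) (e : ℕ) (B : Sh)

/-- width -/
def Sh.wd : Sh → ℕ
  | .sgl L => L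
  | .dbl L => L
  | .node A e B => A.wd + e + B.wd

/-- offset of the position where greedy exploration of the shape ends -/
def Sh.mo : Sh → ℕ
  | .sgl L => L
  | .dbl _ => 1
  | .node A _ _ => A.wd + 1

/-- number of bigons -/
def Sh.nd : Sh → ℕ
  | .sgl _ => 0
  | .dbl _ => 1
  | .node A _ B => A.nd + 1 + B.nd

/-- lower bound for the greedy exploration time -/
def Sh.co : Sh → ℕ
  | .sgl L => L
  | .dbl L => L
  | .node A e B => A.co + (A.wd - A.mo) + e + B.co + B.mo

/-- upper bound for the greedy exploration time -/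
def Sh.uo (R : ℕ) : Sh → ℕ
  | .sgl L => L
  | .dbl L => 2 * L + 2 * R + 1
  | .node A e B => A.uo R + B.uo R + A.wd + B.wd + 2 * e + 2 * R * (A.nd + B.nd + 2)

/-- `dd F l x`: with `F` placed at `l`, the position `x` carries two vertices -/
def Sh.dd : Sh → ℕ → ℕ → Prop
  | .sgl _, _, _ => False
  | .dbl L, l, x => l < x ∧ x < l + L
  | .node A e B, l, x =>
      A.dd l x ∨ (l + A.wd < x ∧ x < l + A.wd + e) ∨ B.dd (l + A.wd + e) x

/-- middle positions -/
def Sh.md : Sh → ℕ → ℕ → Prop
  | .sgl _, _, _ => False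
  | .dbl L, l, x => x = l + L / 2
  | .node A e B, l, x =>
      A.md l x ∨ x = l + A.wd + e / 2 ∨ B.md (l + A.wd + e) x

/-- inner positions of connecting bigons -/
def Sh.ee : Sh → ℕ → ℕ → Prop
  | .sgl _, _, _ => False
  | .dbl _, _, _ => False
  | .node A e B, l, x =>
      A.ee l x ∨ (l + A.wd < x ∧ x < l + A.wd + e) ∨ B.ee (l + A.wd + e) x

/-- good shapes with margin `g` -/
def Sh.gs (g : ℕ) : Sh → Prop
  | .sgl L => 1 ≤ L
  | .dbl L => g ≤ L
  | .node A e B => A.gs g ∧ B.gs g ∧ g ≤ e ∧ A.wd + g ≤ 2 * A.mo ∧ 2 * B.mo + g ≤ B.wd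

/-- the shape `F` placed at `l` is the part of the environment at `l, …, l + wd F` -/
def Env.Fits (X : Env) (l : ℕ) (F : Sh) : Prop :=
  l + F.wd ≤ X.W ∧ ∀ x, l ≤ x → x ≤ l + F.wd →
    ((X.D x ↔ F.dd l x) ∧ (X.M x ↔ F.md l x) ∧ (X.E x ↔ F.ee l x))

/-- the environment of a shape -/
def envOf (F : Sh) : Env := ⟨F.wd, F.dd 0, F.md 0, F.ee 0⟩

/-- the recursive family: `RL k true u` ends far to the right, `RL k false u` far to the left -/
def RL : ℕ → Bool → ℕ → Sh
  | 0, true, u => .sgl u
  | 0, false, u => .dbl u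
  | k + 1, true, u => .node (RL k true (6 * u)) u (RL k false (4 * u))
  | k + 1, false, u => .node (RL k true (4 * u)) u (RL k false (6 * u))

end Pool.Agent.R88.TG
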