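import Pool.Agent.R88.TG.Stm

set_option autoImplicit false

namespace Pool.Agent.R88.TG

open Finset

namespace EXAux

open Classical in
theorem md_count (F : Sh) : ∀ (l N : ℕ), ∑ x ∈ range N, (if F.md l x then 1 else 0) ≤ F.nd := by
  induction F with
  | sgl L =>
    intro l N
    simp [Sh.md, Sh.nd]
  | dbl L =>
    intro l N
    have h0 : ∑ x ∈ range N, (if (Sh.dbl L).md l x then 1 else 0) =
        ∑ x ∈ range N, (if x = l + L / 2 then 1 else 0) := by
      apply sum_congr rfl
      intro x _
      by_cases c : x = l + L / 2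
      · have c' : (Sh.dbl L).md l x := c
        rw [if_pos c, if_pos c']
      · have c' : ¬ (Sh.dbl L).md l x := c
        rw [if_neg c, if_neg c']
    rw [h0, sum_ite_eq']
    simp only [Sh.nd]
    split_ifs <;> omega
  | node A e B ihA ihB =>
    intro l N
    have h1 := ihA l N
    have h2 := ihB (l + A.wd + e) N
    have h3 : ∑ x ∈ range N, (if x = l + A.wd + e / 2 then 1 else 0) ≤ 1 := by
      rw [sum_ite_eq']
      split_ifs <;> omega
    have h4 : ∑ x ∈ range N, (if (Sh.node A e B).md l x then 1 else 0) ≤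
        ∑ x ∈ range N, ((if A.md l x then 1 else 0) + (if x = l + A.wd + e / 2 then 1 else 0) +
          (if B.md (l + A.wd + e) x then 1 else 0)) := by
      apply sum_le_sum
      intro x _
      by_cases c : (Sh.node A e B).md l x
      · rw [if_pos c]
        rcases c with c | c | c
        · rw [if_pos c]; omega
        · rw [if_pos c]; omega
        · rw [if_pos c]; omega
      · rw [if_neg c]
        exact Nat.zero_le _
    rw [sum_add_distrib, sum_add_distrib] at h4
    simp only [Sh.nd]
    omega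

theorem dd_lt (F : Sh) : ∀ (l x : ℕ), F.dd l x → x < l + F.wd := by
  induction F with
  | sgl L => intro l x h; exact h.elim
  | dbl L => intro l x h; exact h.2
  | node A e B ihA ihB =>
    intro l x h
    simp only [Sh.dd] at h
    simp only [Sh.wd]
    rcases h with h | h | h
    · have := ihA l x h; omega
    · omega
    · have := ihB _ x h; omega

open Classical in
theorem pass (𝒢 : ℕ → SimpleGraph (ℕ × Bool)) (ok : ℕ × Bool → Prop) (R T : ℕ)
    (y : ℕ → ℕ × Bool) (a : ℕ → Prop) (hok : ∀ i, ok (y i)) : ∀ n : ℕ,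
    n + R * ∑ i ∈ range n, (if a i then 1 else 0) ≤ T →
    (∀ i < n, ∀ s ≤ T, ∃ t, s < t ∧ t ≤ s + 1 + (if a i then R else 0) ∧
      (𝒢 t).Adj (y i) (y (i + 1))) →
    ∃ t, t ≤ n + R * ∑ i ∈ range n, (if a i then 1 else 0) ∧ ∃ x : ℕ → ℕ × Bool,
      (∀ i, x (i + 1) = x i ∨ (𝒢 (i + 1)).Adj (x i) (x (i + 1))) ∧ (∀ i, ok (x i)) ∧
      (∀ i, t ≤ i → x i = y n) ∧ ∀ i ≤ n, ∃ r ≤ t, x r = y i := by
  intro n
  induction n with
  | zero =>
    intro _ _
    refine ⟨0, by simp, fun _ => y 0, fun _ => Or.inl rfl, fun _ => hok 0, fun _ _ => rfl, ?_⟩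
    intro i hi
    exact ⟨0, le_rfl, by rw [Nat.le_zero.1 hi]⟩
  | succ n ih =>
    intro hT hst
    rw [sum_range_succ, mul_add] at hT ⊢
    obtain ⟨t, ht, x, hx1, hx2, hx3, hx4⟩ := ih (by omega) (fun i hi => hst i (by omega))
    obtain ⟨t', h1, h2, h3⟩ := hst n (by omega) t (by omega)
    refine ⟨t', ?_, fun i => if i < t' then x i else y (n + 1), ?_, ?_, ?_, ?_⟩
    · split_ifs at h2 ⊢ with h <;> omega
    · intro i
      simp only
      by_cases c1 : i + 1 < t'
      · rw [if_pos c1, if_pos (by omega)]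
        exact hx1 i
      · by_cases c2 : i < t'
        · have c3 : i + 1 = t' := by omega
          rw [if_neg c1, if_pos c2, hx3 i (by omega), c3]
          exact Or.inr h3
        · rw [if_neg c1, if_neg c2]
          exact Or.inl rfl
    · intro i
      simp only
      split_ifs
      · exact hx2 i
      · exact hok _
    · intro i hi
      simp only
      rw [if_neg (by omega)]
    · intro i hi
      by_cases c : i ≤ n
      · obtain ⟨r, hr1, hr2⟩ := hx4 i c
        refine ⟨r, by omega, ?_⟩
        simp only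
        rw [if_pos (by omega), hr2]
      · refine ⟨t', le_rfl, ?_⟩
        simp only
        rw [if_neg (by omega), show i = n + 1 by omega]

theorem adj_step (X : Env) (ω : ℕ → Bool) (R T : ℕ) (hG : Good ω R T) (p q : ℕ × Bool)
    (hp : X.ok p) (hq : X.ok q) (h1 : q.1 = p.1 + 1)
    (h2 : p.2 = q.2 ∨ ¬ X.D p.1 ∨ ¬ X.D q.1) (s : ℕ) (hs : s ≤ T) :
    (¬ X.M p.1 → (X.run ω (s + 1)).Adj p q) ∧
      ∃ t, s < t ∧ t ≤ s + R ∧ (X.run ω t).Adj p q := by
  constructor
  · intro hM
    exact ⟨hp, hq, Or.inl ⟨h1, h2, fun h => hM h.1⟩⟩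
  · obtain ⟨t, ht1, ht2, ht3⟩ := hG s hs (!p.2)
    refine ⟨t, ht1, ht2, hp, hq, Or.inl ⟨h1, h2, fun h => ?_⟩⟩
    have h4 := h.2
    rw [ht3] at h4
    cases p.2 <;> simp at h4

end EXAux

open EXAux

theorem sEX (_h1 : S_FIT1) (_h2 : S_FIT2) (_h3 : S_FIT3) : S_EX := by
  classical
  intro X ω R T g F hG hF hW _ _ hT
  have hFit := hF.2
  -- no double position at the end
  have hDW : ¬ X.D X.W := by
    intro h
    rw [hW] at h
    have h2 := ((hFit F.wd (Nat.zero_le _) (by omega)).1).1 h
    have := dd_lt F 0 F.wd h2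
    omega
  let c : ℕ → ℕ × Bool := fun x => (x, decide (X.D x))
  let y : ℕ → ℕ × Bool := fun i => if i ≤ X.W then (i, false) else c (2 * X.W - i)
  obtain ⟨a, ha⟩ : ∃ a : ℕ → Prop, ∀ i, a i = (if i < X.W then X.M i else
    X.M (2 * X.W - 1 - i)) := ⟨_, fun _ => rfl⟩
  have hcok : ∀ x ≤ X.W, X.ok (c x) := by
    intro x hx
    refine ⟨hx, ?_⟩
    by_cases h : X.D x
    · exact Or.inr h
    · left; simp [c, h]
  have hyok : ∀ i, X.ok (y i) := by
    intro i
    simp only [y]
    split_ifs with h
    · exact ⟨h, Or.inl rfl⟩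
    · exact hcok _ (by omega)
  have hyW : ∀ j ≤ X.W, y (X.W + j) = c (X.W - j) := by
    intro j hj
    simp only [y]
    by_cases h : j = 0
    · subst h
      rw [if_pos (by omega)]
      simp [c, hDW]
    · rw [if_neg (by omega)]
      congr 1
      omega
  have hcount : ∑ i ∈ range (2 * X.W), (if a i then 1 else 0) ≤ 2 * F.nd := by
    have hM : ∑ i ∈ range X.W, (if X.M i then 1 else 0) ≤ F.nd := by
      refine le_trans (le_of_eq ?_) (md_count F 0 X.W)
      apply sum_congr rfl
      intro x hx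
      rw [mem_range] at hx
      have h := (hFit x (Nat.zero_le _) (by omega)).2.1
      by_cases hm : X.M x
      · rw [if_pos hm, if_pos (h.1 hm)]
      · rw [if_neg hm, if_neg (fun h' => hm (h.2 h'))]
    rw [two_mul, sum_range_add]
    have e1 : ∑ i ∈ range X.W, (if a i then 1 else 0) =
        ∑ i ∈ range X.W, (if X.M i then 1 else 0) := by
      apply sum_congr rfl
      intro x hx
      rw [mem_range] at hx
      have h9 : a x = X.M x := by rw [ha, if_pos hx]
      simp only [h9]
    have e2 : ∑ i ∈ range X.W, (if a (X.W + i) then 1 else 0) =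
        ∑ i ∈ range X.W, (if X.M i then 1 else 0) := by
      rw [← sum_range_reflect (fun i => if X.M i then 1 else 0) X.W]
      apply sum_congr rfl
      intro x hx
      rw [mem_range] at hx
      have h5 : ¬ (X.W + x < X.W) := by omega
      have h6 : 2 * X.W - 1 - (X.W + x) = X.W - 1 - x := by omega
      have h9 : a (X.W + x) = X.M (X.W - 1 - x) := by rw [ha, if_neg h5, h6]
      simp only [h9]
    omega
  have hb : 2 * X.W + R * ∑ i ∈ range (2 * X.W), (if a i then 1 else 0) ≤
      2 * F.wd + 2 * R * F.nd := by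
    have h7 := Nat.mul_le_mul_left R hcount
    have h8 : R * (2 * F.nd) = 2 * R * F.nd := by ring
    omega
  obtain ⟨t, ht, x, hx1, hx2, hx3, hx4⟩ := EXAux.pass (X.run ω) X.ok R T y a hyok (2 * X.W)
    (hb.trans hT) (by
    intro i hi s hs
    by_cases c1 : i < X.W
    · have e1 : y i = (i, false) := by simp only [y]; rw [if_pos (by omega)]
      have e2 : y (i + 1) = (i + 1, false) := by simp only [y]; rw [if_pos (by omega)]
      have hA := adj_step X ω R T hG (i, false) (i + 1, false) ⟨by simpa using c1.le, Or.inl rfl⟩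
        ⟨by simpa using c1, Or.inl rfl⟩ rfl (Or.inl rfl) s hs
      rw [e1, e2]
      by_cases hm : X.M i
      · obtain ⟨t, ht1, ht2, ht3⟩ := hA.2
        refine ⟨t, ht1, ?_, ht3⟩
        have : a i := by rw [ha, if_pos c1]; exact hm
        rw [if_pos this]
        omega
      · exact ⟨s + 1, by omega, by omega, hA.1 hm⟩
    · obtain ⟨j, rfl⟩ : ∃ j, i = X.W + j := ⟨i - X.W, by omega⟩
      have hj : j < X.W := by omega
      have e1 : y (X.W + j) = c (X.W - j) := hyW j hj.le
      have e2 : y (X.W + j + 1) = c (X.W - 1 - j) := by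
        rw [show X.W + j + 1 = X.W + (j + 1) by ring, hyW (j + 1) hj]
        congr 1
        omega
      have hpos : X.W - j = X.W - 1 - j + 1 := by omega
      have hA := adj_step X ω R T hG (c (X.W - 1 - j)) (c (X.W - j)) (hcok _ (by omega))
        (hcok _ (by omega)) hpos (by
          by_cases d1 : X.D (X.W - 1 - j)
          · by_cases d2 : X.D (X.W - j)
            · left; simp [c, d1, d2]
            · exact Or.inr (Or.inr d2)
          · exact Or.inr (Or.inl d1)) s hs
      rw [e1, e2]
      have ha : a (X.W + j) ↔ X.M (X.W - 1 - j) := by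
        have h6 : 2 * X.W - 1 - (X.W + j) = X.W - 1 - j := by omega
        rw [ha, if_neg c1, h6]
      by_cases hm : X.M (X.W - 1 - j)
      · obtain ⟨t, ht1, ht2, ht3⟩ := hA.2
        refine ⟨t, ht1, ?_, ht3.symm⟩
        rw [if_pos (ha.2 hm)]
        omega
      · exact ⟨s + 1, by omega, by omega, (hA.1 hm).symm⟩)
  refine ⟨x, fun i _ => hx1 i, hx2, ?_⟩
  rintro ⟨w, b⟩ ⟨hw1, hw2⟩
  simp only at hw1 hw2
  rcases hw2 with hw2 | hw2
  · obtain ⟨r, hr1, hr2⟩ := hx4 w (by omega)
    refine ⟨r, by omega, ?_⟩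
    rw [hr2]
    simp only [y]
    rw [if_pos hw1, hw2]
  · cases b with
    | false =>
      obtain ⟨r, hr1, hr2⟩ := hx4 w (by omega)
      refine ⟨r, by omega, ?_⟩
      rw [hr2]
      simp only [y]
      rw [if_pos hw1]
    | true =>
      obtain ⟨r, hr1, hr2⟩ := hx4 (X.W + (X.W - w)) (by omega)
      refine ⟨r, by omega, ?_⟩
      rw [hr2, hyW _ (by omega)]
      have : X.W - (X.W - w) = w := by omega
      rw [this]
      simp [c, hw2]

end Pool.Agent.R88.TG
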