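import Pool.Agent.R88.TG.Stm

/-!
# Elementary facts on shapes (project TG, MP_041baa_co)
-/

set_option autoImplicit false

namespace Pool.Agent.R88.TG

theorem sFIT1 : S_FIT1 := by
  intro F g
  induction F with
  | sgl L =>
    intro h hg
    simp only [Sh.gs] at h
    simp only [Sh.wd, Sh.mo, Sh.dd, Sh.md, Sh.ee]
    refine ⟨h, le_rfl, h, fun l x => ⟨fun h => h.elim, fun h => h.elim, fun h => h.elim⟩⟩
  | dbl L =>
    intro h hg
    simp only [Sh.gs] at h
    simp only [Sh.wd, Sh.mo, Sh.dd, Sh.md, Sh.ee]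
    refine ⟨by omega, by omega, le_rfl, fun l x => ⟨fun h => h, fun h => ?_, fun h => h.elim⟩⟩
    omega
  | node A e B hA hB =>
    intro h hg
    simp only [Sh.gs] at h
    obtain ⟨h1, h2, h3, h4, h5⟩ := h
    obtain ⟨a1, a2, a3, a4⟩ := hA h1 hg
    obtain ⟨b1, b2, b3, b4⟩ := hB h2 hg
    simp only [Sh.wd, Sh.mo, Sh.dd, Sh.md, Sh.ee]
    refine ⟨by omega, by omega, by omega, fun l x => ⟨?_, ?_, ?_⟩⟩
    · rintro (h | h | h)
      · have := (a4 l x).1 h
        omega
      · omega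
      · have := (b4 (l + A.wd + e) x).1 h
        omega
    · rintro (h | h | h)
      · obtain ⟨c1, c2, c3, c4⟩ := (a4 l x).2.1 h
        exact ⟨by omega, by omega, Or.inl c3, Or.inl c4⟩
      · exact ⟨by omega, by omega, Or.inr (Or.inl (by omega)), Or.inr (Or.inl (by omega))⟩
      · obtain ⟨c1, c2, c3, c4⟩ := (b4 (l + A.wd + e) x).2.1 h
        exact ⟨by omega, by omega, Or.inr (Or.inr c3), Or.inr (Or.inr c4)⟩
    · rintro (h | h | h)
      · have := (a4 l x).2.2 h
        omega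
      · omega
      · have := (b4 (l + A.wd + e) x).2.2 h
        omega

theorem sFIT2 : S_FIT2 := by
  intro X A B e l g hX hg h10
  simp only [Sh.gs] at hg
  obtain ⟨h1, h2, h3, h4, h5⟩ := hg
  obtain ⟨a1, a2, a3, a4⟩ := sFIT1 A g h1 h10
  obtain ⟨b1, b2, b3, b4⟩ := sFIT1 B g h2 h10
  obtain ⟨hW, hX⟩ := hX
  simp only [Sh.wd, Sh.dd, Sh.md, Sh.ee] at hW hX
  -- exclusion facts
  have nA : ∀ x, l + A.wd ≤ x → ¬ A.dd l x ∧ ¬ A.md l x ∧ ¬ A.ee l x := by
    intro x hx
    refine ⟨fun h => ?_, fun h => ?_, fun h => ?_⟩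
    · have := (a4 l x).1 h
      omega
    · have := (a4 l x).2.1 h
      omega
    · have := (a4 l x).2.2 h
      omega
  have nB : ∀ x, x ≤ l + A.wd + e → ¬ B.dd (l + A.wd + e) x ∧ ¬ B.md (l + A.wd + e) x ∧
      ¬ B.ee (l + A.wd + e) x := by
    intro x hx
    refine ⟨fun h => ?_, fun h => ?_, fun h => ?_⟩
    · have := (b4 (l + A.wd + e) x).1 h
      omega
    · have := (b4 (l + A.wd + e) x).2.1 h
      omega
    · have := (b4 (l + A.wd + e) x).2.2 h
      omega
  refine ⟨⟨by omega, fun x hx1 hx2 => ?_⟩, ⟨by omega, ?_, ?_, ?_, ?_⟩, ⟨by omega, fun x hx1 hx2 => ?_⟩,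
    ?_⟩
  · obtain ⟨d1, d2, d3⟩ := hX x hx1 (by omega)
    obtain ⟨n1, n2, n3⟩ := nB x (by omega)
    have k1 : ¬ (l + A.wd < x ∧ x < l + A.wd + e) := by omega
    have k2 : ¬ x = l + A.wd + e / 2 := by omega
    rw [d1, d2, d3]
    tauto
  · rw [(hX _ (by omega) (by omega)).1]
    have n := (nA (l + A.wd) (by omega)).1
    have m := (nB (l + A.wd) (by omega)).1
    rintro (h | h | h)
    · exact n h
    · omega
    · exact m h
  · rw [(hX _ (by omega) (by omega)).1]
    have n := (nA (l + A.wd + e) (by omega)).1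
    have m := (nB (l + A.wd + e) (by omega)).1
    rintro (h | h | h)
    · exact n h
    · omega
    · exact m h
  · intro x hx1 hx2
    rw [(hX x (by omega) (by omega)).1]
    exact Or.inr (Or.inl ⟨hx1, hx2⟩)
  · intro x hx1 hx2
    rw [(hX x (by omega) (by omega)).2.1]
    have n := (nA x (by omega)).2.1
    have m := (nB x (by omega)).2.1
    tauto
  · obtain ⟨d1, d2, d3⟩ := hX x (by omega) (by omega)
    obtain ⟨n1, n2, n3⟩ := nA x (by omega)
    have k1 : ¬ (l + A.wd < x ∧ x < l + A.wd + e) := by omega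
    have k2 : ¬ x = l + A.wd + e / 2 := by omega
    rw [d1, d2, d3]
    tauto
  · intro x hx1 hx2
    rw [(hX x (by omega) (by omega)).2.2]
    exact Or.inr (Or.inl ⟨hx1, hx2⟩)

theorem sFIT3 : S_FIT3 := by
  intro X L l g hX hg h10
  obtain ⟨hW, hX⟩ := hX
  simp only [Sh.wd, Sh.dd, Sh.md, Sh.ee] at hW hX
  refine ⟨⟨hW, ?_, ?_, ?_, ?_⟩, ?_⟩
  · rw [(hX l (by omega) (by omega)).1]
    omega
  · rw [(hX (l + L) (by omega) (by omega)).1]
    omega
  · intro x hx1 hx2
    rw [(hX x (by omega) (by omega)).1]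
    exact ⟨hx1, hx2⟩
  · intro x hx1 hx2
    exact (hX x (by omega) (by omega)).2.1
  · intro x hx1 hx2
    rw [(hX x (by omega) (by omega)).2.2]
    exact not_false

theorem sRKI : S_RKI := by
  classical
  intro X p q hp hq h
  have key : ∀ (c c' a a' m : ℕ), a < m → a' < m → c * m + a = c' * m + a' → a = a' := by
    intro c c' a a' m ha ha' h
    have h1 : (c * m + a) % m = a := by
      rw [Nat.mul_add_mod_self_right, Nat.mod_eq_of_lt ha]
    have h2 : (c' * m + a') % m = a' := by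
      rw [Nat.mul_add_mod_self_right, Nat.mod_eq_of_lt ha']
    rw [← h1, h, h2]
  unfold Env.rk at h
  rw [add_assoc, add_assoc] at h
  have hp1 := hp.1
  have hq1 := hq.1
  have h3 := key _ _ _ _ _ (by split_ifs <;> omega) (by split_ifs <;> omega) h
  obtain ⟨x, b⟩ := p
  obtain ⟨y, c⟩ := q
  cases b <;> cases c <;> simp at h3 ⊢ <;> omega

end Pool.Agent.R88.TG
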