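import Pool.Agent.R88.TG.Defs

/-!
# Greedy temporal exploration: statements of the pieces (project TG, MP_041baa_co)
-/

set_option autoImplicit false

namespace Pool.Agent.R88.TG

open MeasureTheory

/-! ## Arc crossings of the greedy explorer -/

/-- Piece ARCR: greedy explorer crosses the arc `j` of a bigon from left to right. -/
def S_ARCR : Prop :=
  ∀ (X : Env) (ω : ℕ → Bool) (R T p e : ℕ) (j : Bool) (v₀ : ℕ × Bool) (S : Set (ℕ × Bool)) (s : ℕ),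
    Good ω R T → X.ArcAt p e → 2 * R + 8 ≤ e → s + e + R ≤ T →
    Greedy (X.run ω) X.rk v₀ S (p + 1, j) s → (p, false) ∈ S →
    (∀ x, p + 2 ≤ x → x < p + e → (x, j) ∉ S) → (p + e, false) ∉ S →
    ∃ t, s + (e - 1) ≤ t ∧ t ≤ s + (e - 1) + R ∧
      Greedy (X.run ω) X.rk v₀
        (S ∪ {w | (w.2 = j ∧ p + 1 ≤ w.1 ∧ w.1 < p + e) ∨ w = (p + e, false)}) (p + e, false) t

/-- Piece ARCL: greedy explorer crosses the arc `j` of a bigon from right to left. -/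
def S_ARCL : Prop :=
  ∀ (X : Env) (ω : ℕ → Bool) (R T p e : ℕ) (j : Bool) (v₀ : ℕ × Bool) (S : Set (ℕ × Bool)) (s : ℕ),
    Good ω R T → X.ArcAt p e → 2 * R + 8 ≤ e → s + e + R ≤ T →
    Greedy (X.run ω) X.rk v₀ S (p + e - 1, j) s → (p + e, false) ∈ S →
    (∀ x, p + 1 ≤ x → x < p + e - 1 → (x, j) ∉ S) →
    ∃ t, s + (e - 2) ≤ t ∧ t ≤ s + (e - 2) + R ∧
      Greedy (X.run ω) X.rk v₀
        (S ∪ {w | w.2 = j ∧ p + 1 ≤ w.1 ∧ w.1 < p + e}) (p + 1, j) t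

/-! ## Shapes -/

/-- Piece FIT: elementary facts on shapes. -/
def S_FIT1 : Prop :=
  ∀ (F : Sh) (g : ℕ), F.gs g → 10 ≤ g →
    1 ≤ F.wd ∧ F.mo ≤ F.wd ∧ 1 ≤ F.mo ∧
    ∀ l x, (F.dd l x → l < x ∧ x < l + F.wd) ∧ (F.md l x → l < x ∧ x + 1 < l + F.wd ∧ F.dd l x ∧ F.dd l (x + 1)) ∧
      (F.ee l x → l < x ∧ x < l + F.wd)

def S_FIT2 : Prop :=
  ∀ (X : Env) (A B : Sh) (e l g : ℕ), X.Fits l (.node A e B) → Sh.gs g (.node A e B) → 10 ≤ g →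
    X.Fits l A ∧ X.ArcAt (l + A.wd) e ∧ X.Fits (l + A.wd + e) B ∧
    (∀ x, l + A.wd < x → x < l + A.wd + e → X.E x)

def S_FIT3 : Prop :=
  ∀ (X : Env) (L l g : ℕ), X.Fits l (.dbl L) → g ≤ L → 10 ≤ g →
    X.ArcAt l L ∧ (∀ x, l < x → x < l + L → ¬ X.E x)

/-- Piece MV: reaching the right and the left end of a shape from any vertex of it. -/
def S_MV : Prop :=
  ∀ (X : Env) (ω : ℕ → Bool) (R T g : ℕ) (F : Sh) (l : ℕ), Good ω R T → X.Fits l F → F.gs g →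
    10 ≤ g → ∀ (x : ℕ) (j : Bool) (s : ℕ), X.ok (x, j) → l ≤ x → x ≤ l + F.wd →
    s + F.wd + R * F.nd ≤ T →
    (∃ t, t ≤ s + (l + F.wd - x) + R * F.nd ∧ Reach (X.run ω) s (x, j) t (l + F.wd, false)) ∧
    (∃ t, t ≤ s + (x - l) + R * F.nd ∧ Reach (X.run ω) s (x, j) t (l, false))

/-- Piece TRVR: greedy step from inside a completely visited shape to the right. -/
def S_TRVR : Prop :=
  ∀ (X : Env) (ω : ℕ → Bool) (R T g : ℕ) (F : Sh) (l : ℕ), Good ω R T → X.Fits l F → F.gs g →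
    R * (F.nd + 3) + 10 ≤ g → ∀ (x₀ : ℕ) (i : Bool) (v₀ : ℕ × Bool) (S : Set (ℕ × Bool)) (s : ℕ),
    s + F.wd + R * F.nd + 2 ≤ T →
    Greedy (X.run ω) X.rk v₀ S (x₀, i) s → X.ok (x₀, i) → l ≤ x₀ → x₀ ≤ l + F.wd →
    (∀ w, X.ok w → l ≤ w.1 → w.1 ≤ l + F.wd → w ∈ S) →
    (∀ b, (l + F.wd + 1, b) ∉ S) → l + F.wd + 1 ≤ X.W →
    2 * l + F.wd + g ≤ 2 * x₀ →
    ∃ t, s + (l + F.wd + 1 - x₀) ≤ t ∧ t ≤ s + (l + F.wd + 1 - x₀) + R * F.nd ∧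
      Greedy (X.run ω) X.rk v₀ (insert (l + F.wd + 1, false) S) (l + F.wd + 1, false) t

/-- Piece TRVL: greedy step from inside a completely visited shape to the left, into the
unvisited arc `true` of the bigon `p, …, p + e = l` on the left of the shape. -/
def S_TRVL : Prop :=
  ∀ (X : Env) (ω : ℕ → Bool) (R T g : ℕ) (F : Sh) (l p e : ℕ), Good ω R T → X.Fits l F → F.gs g →
    R * (F.nd + 3) + 10 ≤ g → g ≤ e → X.ArcAt p e → p + e = l →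
    ∀ (x₀ : ℕ) (i : Bool) (v₀ : ℕ × Bool) (S : Set (ℕ × Bool)) (s : ℕ),
    s + F.wd + R * F.nd + 2 ≤ T →
    Greedy (X.run ω) X.rk v₀ S (x₀, i) s → X.ok (x₀, i) → l ≤ x₀ → x₀ ≤ l + F.wd →
    (∀ w, X.ok w → l ≤ w.1 → w.1 ≤ l + F.wd → w ∈ S) →
    (∀ x, p < x → x < l → (x, false) ∈ S) →
    (∀ x, p < x → x < l → (x, true) ∉ S) →
    2 * x₀ + g ≤ 2 * l + F.wd →
    ∃ t, s + (x₀ - l) + 1 ≤ t ∧ t ≤ s + (x₀ - l) + 1 + R * F.nd ∧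
      Greedy (X.run ω) X.rk v₀ (insert (l - 1, true) S) (l - 1, true) t

/-- The greedy run on a shape `F` placed at `l`. -/
def RunStm (X : Env) (ω : ℕ → Bool) (R T : ℕ) (F : Sh) : Prop :=
  ∀ l, X.Fits l F →
    (X.ok (l + F.wd + 1, false) → X.E (l + F.wd + 1)) →
    ∀ (v₀ : ℕ × Bool) (S : Set (ℕ × Bool)) (s : ℕ), s + F.uo R ≤ T →
    Greedy (X.run ω) X.rk v₀ S (l, false) s →
    (∀ w : ℕ × Bool, l < w.1 → w.1 ≤ l + F.wd → w ∉ S) →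
    (∀ w : ℕ × Bool, X.ok w → w.1 + 1 = l → w ∉ S → X.E w.1) →
    ∃ t i, s + F.co ≤ t ∧ t ≤ s + F.uo R ∧
      Greedy (X.run ω) X.rk v₀ (S ∪ {w | X.ok w ∧ l < w.1 ∧ w.1 ≤ l + F.wd}) (l + F.mo, i) t

/-- Piece SGL: the run on a single path. -/
def S_SGL : Prop :=
  ∀ (X : Env) (ω : ℕ → Bool) (R T L : ℕ), 1 ≤ L → RunStm X ω R T (.sgl L)

/-- Piece DBL: the run on a leaf bigon. -/
def S_DBL : Prop :=
  ∀ (X : Env) (ω : ℕ → Bool) (R T L : ℕ), Good ω R T → 2 * R + 10 ≤ L →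
    RunStm X ω R T (.dbl L)

/-- Piece NODE: the run on a node. -/
def S_NODE : Prop :=
  ∀ (X : Env) (ω : ℕ → Bool) (R T g : ℕ) (A B : Sh) (e : ℕ), Good ω R T →
    Sh.gs g (.node A e B) → R * (Sh.nd (.node A e B) + 3) + 10 ≤ g →
    RunStm X ω R T A → RunStm X ω R T B → RunStm X ω R T (.node A e B)

/-- Piece EX: a quick exploration. -/
def S_EX : Prop :=
  ∀ (X : Env) (ω : ℕ → Bool) (R T g : ℕ) (F : Sh), Good ω R T → X.Fits 0 F → X.W = F.wd →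
    F.gs g → 10 ≤ g → 2 * F.wd + 2 * R * F.nd ≤ T →
    ∃ x : ℕ → ℕ × Bool,
      (∀ i < 2 * F.wd + 2 * R * F.nd, x (i + 1) = x i ∨ (X.run ω (i + 1)).Adj (x i) (x (i + 1))) ∧
      (∀ i, X.ok (x i)) ∧
      ∀ w, X.ok w → ∃ i ≤ 2 * F.wd + 2 * R * F.nd, x i = w

/-- Piece TREE: the snapshots are trees. `f` identifies the vertex set with the `ok` vertices. -/
def S_TREE : Prop :=
  ∀ (X : Env) (g : ℕ) (F : Sh), X.Fits 0 F → X.W = F.wd → F.gs g → 10 ≤ g → ∀ (b : Bool) (n : ℕ)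
    (f : Fin n → ℕ × Bool), Function.Injective f → (∀ p, X.ok p ↔ ∃ v, f v = p) →
    ((X.G b).comap f).IsTree

/-- Piece PROB: with high probability all windows up to time `T` contain both trees. -/
def S_PROB : Prop :=
  ∀ (n : ℕ) (H : Bool → SimpleGraph (Fin n)), H false ≠ H true → ∀ R T : ℕ,
    law ((PMF.uniformOfFintype Bool).map H)
      {𝒢 | ¬ ∃ ω : ℕ → Bool, (∀ t, 𝒢 t = H (ω t)) ∧ Good ω R T} ≤
      2 * ((T : ENNReal) + 1) * (1 / 2) ^ R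

/-- Piece NUM: the numbers of the recursive family. -/
def S_NUM : Prop :=
  ∀ k : ℕ, 1 ≤ k → ∃ K R₀ : ℕ, ∀ R : ℕ, R₀ ≤ R → 1 ≤ R ∧ ∃ (A B : Sh) (e g : ℕ),
    RL k true (R ^ 2) = .node A e B ∧
    Sh.gs g (RL k true (R ^ 2)) ∧ R * ((RL k true (R ^ 2)).nd + 3) + 10 ≤ g ∧
    2 * R * (RL k true (R ^ 2)).nd ≤ (RL k true (R ^ 2)).wd ∧
    k * (RL k true (R ^ 2)).wd ≤ 5 * (RL k true (R ^ 2)).co ∧
    (RL k true (R ^ 2)).uo R ≤ K * R ^ 2 ∧ (RL k true (R ^ 2)).wd ≤ K * R ^ 2 ∧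
    R ≤ (RL k true (R ^ 2)).wd

/-- Piece LIM. -/
def S_LIM : Prop :=
  ∀ (K : ℕ) (δ : ENNReal), δ ≠ 0 → ∃ R₁ : ℕ, ∀ R : ℕ, R₁ ≤ R →
    2 * (((4 * K * R ^ 2 : ℕ) : ENNReal) + 1) * (1 / 2) ^ R ≤ δ

/-- Piece TRG: transfer of a greedy run and of an exploration to the vertex set `Fin n`. -/
def S_TRG : Prop :=
  ∀ (X : Env) (ω : ℕ → Bool) (n : ℕ) (f : Fin n → ℕ × Bool), Function.Injective f →
    (∀ p, X.ok p ↔ ∃ v, f v = p) → ∀ (v₀ : Fin n) (S : Set (ℕ × Bool)) (v : ℕ × Bool) (t : ℕ),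
    Greedy (X.run ω) X.rk (f v₀) S v t →
    ∃ v', f v' = v ∧
      Greedy (fun i => (X.G (ω i)).comap f) (fun u => X.rk (f u)) v₀ (f ⁻¹' S) v' t

/-- Piece RKI: the tie-breaking order is injective on the vertices. -/
def S_RKI : Prop :=
  ∀ (X : Env) (p q : ℕ × Bool), X.ok p → X.ok q → X.rk p = X.rk q → p = q

end Pool.Agent.R88.TG
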