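import Mathlib
import Pool.Agent.R88.TG.Stm

/-!
# Greedy temporal exploration: piece MV (project TG, MP_041baa_co)
-/

set_option autoImplicit false

namespace Pool.Agent.R88.TG

namespace MV

section General

variable {V : Type} {𝒢 : ℕ → SimpleGraph V}

theorem trans' {s t t' : ℕ} {v u w : V} (h1 : Reach 𝒢 s v t u) (h2 : Reach 𝒢 t u t' w) :
    Reach 𝒢 s v t' w := by
  induction h2 with
  | refl => exact h1
  | stay _ ih => exact ih.stay
  | move _ hadj ih => exact ih.move hadj

theorem wait (s : ℕ) (v : V) (n : ℕ) : Reach 𝒢 s v (s + n) v := by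
  induction n with
  | zero => exact Reach.refl
  | succ n ih => exact ih.stay

theorem path (v : ℕ → V) (N : ℕ) (h : ∀ n < N, ∀ t, (𝒢 t).Adj (v n) (v (n + 1))) (s : ℕ) :
    Reach 𝒢 s (v 0) (s + N) (v N) := by
  induction N with
  | zero => exact Reach.refl
  | succ N ih => exact (ih fun n hn => h n (by omega)).move (h N (by omega) _)

theorem cross (s t : ℕ) (a b : V) (hst : s < t) (h : (𝒢 t).Adj a b) : Reach 𝒢 s a t b := by
  obtain ⟨n, rfl⟩ : ∃ n, t = s + n + 1 := ⟨t - s - 1, by omega⟩
  exact (wait s a n).move h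

end General

open Classical in
/-- the vertex of the arc `j` at the position `y` -/
noncomputable def vv (X : Env) (j : Bool) (y : ℕ) : ℕ × Bool := (y, if X.D y then j else false)

theorem vv_eq (X : Env) (j : Bool) (x : ℕ) (h : X.ok (x, j)) : vv X j x = (x, j) := by
  unfold vv
  by_cases hD : X.D x
  · rw [if_pos hD]
  · rw [if_neg hD]
    have : j = false := h.2.resolve_right hD
    rw [this]

theorem vv_single (X : Env) (j : Bool) (x : ℕ) (h : ¬ X.D x) : vv X j x = (x, false) := by
  unfold vv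
  rw [if_neg h]

theorem vv_ok (X : Env) (j : Bool) (x : ℕ) (h : x ≤ X.W) : X.ok (vv X j x) := by
  unfold vv
  refine ⟨h, ?_⟩
  by_cases hD : X.D x
  · exact Or.inr hD
  · exact Or.inl (if_neg hD)

theorem adj_step (X : Env) (b j : Bool) (y : ℕ) (hW : y + 1 ≤ X.W) (hM : ¬ (X.M y ∧ (vv X j y).2 = b)) :
    (X.G b).Adj (vv X j y) (vv X j (y + 1)) := by
  refine ⟨vv_ok X j y (by omega), vv_ok X j (y + 1) hW, Or.inl ⟨rfl, ?_, hM⟩⟩
  by_cases h1 : X.D y
  · by_cases h2 : X.D (y + 1)
    · left
      unfold vv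
      rw [if_pos h1, if_pos h2]
    · exact Or.inr (Or.inr h2)
  · exact Or.inr (Or.inl h1)

theorem right (X : Env) (ω : ℕ → Bool) (j : Bool) (x n s : ℕ) (hW : x + n ≤ X.W)
    (hM : ∀ y, x ≤ y → y < x + n → ¬ X.M y) :
    Reach (X.run ω) s (vv X j x) (s + n) (vv X j (x + n)) := by
  refine path (fun i => vv X j (x + i)) n ?_ s
  intro i hi t
  exact adj_step X (ω t) j (x + i) (by omega) fun h => hM (x + i) (by omega) (by omega) h.1

theorem left (X : Env) (ω : ℕ → Bool) (j : Bool) (x n s : ℕ) (hW : x ≤ X.W) (hn : n ≤ x)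
    (hM : ∀ y, x - n ≤ y → y < x → ¬ X.M y) :
    Reach (X.run ω) s (vv X j x) (s + n) (vv X j (x - n)) := by
  refine path (fun i => vv X j (x - i)) n ?_ s
  intro i hi t
  have h := adj_step X (ω t) j (x - (i + 1)) (by omega) fun h => hM (x - (i + 1)) (by omega)
    (by omega) h.1
  have e : x - (i + 1) + 1 = x - i := by omega
  rw [e] at h
  exact h.symm

theorem bigon_right (X : Env) (ω : ℕ → Bool) (R T p e : ℕ) (hG : Good ω R T) (hA : X.ArcAt p e)
    (he : 10 ≤ e) (x : ℕ) (j : Bool) (s : ℕ) (hok : X.ok (x, j)) (h1 : p ≤ x) (h2 : x ≤ p + e)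
    (hT : s + e ≤ T) :
    ∃ t, t ≤ s + (p + e - x) + R ∧ Reach (X.run ω) s (x, j) t (p + e, false) := by
  have hlW := hA.leW
  rw [← vv_eq X j x hok, ← vv_single X j (p + e) hA.right]
  rcases Nat.lt_or_ge (p + e / 2) x with h | h
  · refine ⟨s + (p + e - x), by omega, ?_⟩
    have := right X ω j x (p + e - x) s (by omega) fun y hy1 hy2 hM => by
      have := (hA.mid y (by omega) (by omega)).1 hM
      omega
    have e1 : x + (p + e - x) = p + e := by omega
    rw [e1] at this
    exact this
  · have r1 := right X ω j x (p + e / 2 - x) s (by omega) fun y hy1 hy2 hM => by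
      have := (hA.mid y (by omega) (by omega)).1 hM
      omega
    have e1 : x + (p + e / 2 - x) = p + e / 2 := by omega
    rw [e1] at r1
    obtain ⟨t, ht1, ht2, ht3⟩ := hG (s + (p + e / 2 - x)) (by omega) (!j)
    have r2 : Reach (X.run ω) (s + (p + e / 2 - x)) (vv X j (p + e / 2)) t
        (vv X j (p + e / 2 + 1)) := by
      refine cross _ _ _ _ ht1 (adj_step X (ω t) j (p + e / 2) (by omega) ?_)
      rintro ⟨_, h4⟩
      rw [ht3] at h4
      unfold vv at h4
      rw [if_pos (hA.inner _ (by omega) (by omega))] at h4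
      cases j <;> simp at h4
    have r3 := right X ω j (p + e / 2 + 1) (p + e - (p + e / 2 + 1)) t (by omega)
      fun y hy1 hy2 hM => by
        have := (hA.mid y (by omega) (by omega)).1 hM
        omega
    have e2 : p + e / 2 + 1 + (p + e - (p + e / 2 + 1)) = p + e := by omega
    rw [e2] at r3
    exact ⟨_, by omega, trans' (trans' r1 r2) r3⟩

theorem bigon_left (X : Env) (ω : ℕ → Bool) (R T p e : ℕ) (hG : Good ω R T) (hA : X.ArcAt p e)
    (he : 10 ≤ e) (x : ℕ) (j : Bool) (s : ℕ) (hok : X.ok (x, j)) (h1 : p ≤ x) (h2 : x ≤ p + e)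
    (hT : s + e ≤ T) :
    ∃ t, t ≤ s + (x - p) + R ∧ Reach (X.run ω) s (x, j) t (p, false) := by
  have hlW := hA.leW
  rw [← vv_eq X j x hok, ← vv_single X j p hA.left]
  rcases Nat.lt_or_ge (p + e / 2) x with h | h
  · have r1 := left X ω j x (x - (p + e / 2 + 1)) s (by omega) (by omega) fun y hy1 hy2 hM => by
      have := (hA.mid y (by omega) (by omega)).1 hM
      omega
    have e1 : x - (x - (p + e / 2 + 1)) = p + e / 2 + 1 := by omega
    rw [e1] at r1
    obtain ⟨t, ht1, ht2, ht3⟩ := hG (s + (x - (p + e / 2 + 1))) (by omega) (!j)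
    have r2 : Reach (X.run ω) (s + (x - (p + e / 2 + 1))) (vv X j (p + e / 2 + 1)) t
        (vv X j (p + e / 2)) := by
      refine cross _ _ _ _ ht1 (adj_step X (ω t) j (p + e / 2) (by omega) ?_).symm
      rintro ⟨_, h4⟩
      rw [ht3] at h4
      unfold vv at h4
      rw [if_pos (hA.inner _ (by omega) (by omega))] at h4
      cases j <;> simp at h4
    have r3 := left X ω j (p + e / 2) (e / 2) t (by omega) (by omega)
      fun y hy1 hy2 hM => by
        have := (hA.mid y (by omega) (by omega)).1 hM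
        omega
    have e2 : p + e / 2 - e / 2 = p := by omega
    rw [e2] at r3
    exact ⟨_, by omega, trans' (trans' r1 r2) r3⟩
  · refine ⟨s + (x - p), by omega, ?_⟩
    have := left X ω j x (x - p) s (by omega) (by omega) fun y hy1 hy2 hM => by
      have := (hA.mid y (by omega) (by omega)).1 hM
      omega
    have e1 : x - (x - p) = p := by omega
    rw [e1] at this
    exact this

end MV

open MV

theorem sMV (h1 : S_FIT1) (h2 : S_FIT2) (h3 : S_FIT3) : S_MV := by
  intro X ω R T g F
  induction F with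
  | sgl L =>
    intro l _ hF _ _ x j s hok hx1 hx2 _
    simp only [Sh.wd, Sh.nd, Nat.mul_zero, Nat.add_zero] at hx2 ⊢
    have hW : l + L ≤ X.W := hF.1
    have hD : ∀ y, l ≤ y → y ≤ l + L → ¬ X.D y := fun y hy1 hy2 hD => by
      have := ((hF.2 y hy1 hy2).1).1 hD
      exact this
    have hM : ∀ y, l ≤ y → y ≤ l + L → ¬ X.M y := fun y hy1 hy2 hM => by
      have := ((hF.2 y hy1 hy2).2.1).1 hM
      exact this
    rw [← vv_eq X j x hok, ← vv_single X j (l + L) (hD _ (by omega) le_rfl),
      ← vv_single X j l (hD _ le_rfl (by omega))]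
    constructor
    · refine ⟨s + (l + L - x), le_rfl, ?_⟩
      have := right X ω j x (l + L - x) s (by omega) fun y hy1 hy2 => hM y (by omega) (by omega)
      have e1 : x + (l + L - x) = l + L := by omega
      rw [e1] at this
      exact this
    · refine ⟨s + (x - l), le_rfl, ?_⟩
      have := left X ω j x (x - l) s (by omega) (by omega) fun y hy1 hy2 =>
        hM y (by omega) (by omega)
      have e1 : x - (x - l) = l := by omega
      rw [e1] at this
      exact this
  | dbl L =>
    intro l hG hF hgs hg x j s hok hx1 hx2 hT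
    simp only [Sh.wd, Sh.nd, Nat.mul_one] at hx2 hT ⊢
    have hgL : g ≤ L := hgs
    have hA := (h3 X L l g hF hgL hg).1
    exact ⟨bigon_right X ω R T l L hG hA (by omega) x j s hok hx1 hx2 (by omega),
      bigon_left X ω R T l L hG hA (by omega) x j s hok hx1 hx2 (by omega)⟩
  | node A e B ihA ihB =>
    intro l hG hF hgs hg x j s hok hx1 hx2 hT
    obtain ⟨hFA, hArc, hFB, _⟩ := h2 X A B e l g hF hgs hg
    obtain ⟨hgA, hgB, hge, _, _⟩ := hgs
    have hwd : (Sh.node A e B).wd = A.wd + e + B.wd := rfl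
    have hnd : (Sh.node A e B).nd = A.nd + 1 + B.nd := rfl
    have hR : R * (Sh.node A e B).nd = R * A.nd + R + R * B.nd := by rw [hnd]; ring
    have hWA : l + A.wd ≤ X.W := hFA.1
    have hWB : l + A.wd + e + B.wd ≤ X.W := hFB.1
    rw [hwd] at hx2 hT
    rw [hR] at hT
    rw [hwd, hR]
    have okA : X.ok (l + A.wd, false) := ⟨hWA, Or.inl rfl⟩
    have okB : X.ok (l + A.wd + e, false) := ⟨by change l + A.wd + e ≤ X.W; omega, Or.inl rfl⟩
    have eR : l + (A.wd + e + B.wd) = l + A.wd + e + B.wd := by omega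
    rw [eR]
    generalize R * A.nd = ra at *
    generalize R * B.nd = rb at *
    rcases Nat.lt_or_ge (l + A.wd + e) x with hxB | hxB
    · -- in B
      obtain ⟨⟨t1, ht1, hr1⟩, ⟨t2, ht2, hr2⟩⟩ := ihB (l + A.wd + e) hG hFB hgB hg x j s hok
        (by omega) (by omega) (by omega)
      constructor
      · exact ⟨t1, by omega, hr1⟩
      · obtain ⟨t3, ht3, hr3⟩ := bigon_left X ω R T (l + A.wd) e hG hArc (by omega)
          (l + A.wd + e) false t2 okB (by omega) (by omega) (by omega)
        obtain ⟨_, ⟨t4, ht4, hr4⟩⟩ := ihA l hG hFA hgA hg (l + A.wd) false t3 okA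
          (by omega) (by omega) (by omega)
        exact ⟨t4, by omega, trans' (trans' hr2 hr3) hr4⟩
    · rcases Nat.lt_or_ge (l + A.wd) x with hxM | hxM
      · -- in the bigon
        constructor
        · obtain ⟨t1, ht1, hr1⟩ := bigon_right X ω R T (l + A.wd) e hG hArc (by omega)
            x j s hok (by omega) (by omega) (by omega)
          obtain ⟨⟨t2, ht2, hr2⟩, _⟩ := ihB (l + A.wd + e) hG hFB hgB hg (l + A.wd + e) false t1
            okB (by omega) (by omega) (by omega)
          exact ⟨t2, by omega, trans' hr1 hr2⟩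
        · obtain ⟨t1, ht1, hr1⟩ := bigon_left X ω R T (l + A.wd) e hG hArc (by omega)
            x j s hok (by omega) (by omega) (by omega)
          obtain ⟨_, ⟨t2, ht2, hr2⟩⟩ := ihA l hG hFA hgA hg (l + A.wd) false t1
            okA (by omega) (by omega) (by omega)
          exact ⟨t2, by omega, trans' hr1 hr2⟩
      · -- in A
        obtain ⟨⟨t1, ht1, hr1⟩, ⟨t2, ht2, hr2⟩⟩ := ihA l hG hFA hgA hg x j s hok
          (by omega) (by omega) (by omega)
        constructor
        · obtain ⟨t3, ht3, hr3⟩ := bigon_right X ω R T (l + A.wd) e hG hArc (by omega)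
            (l + A.wd) false t1 okA (by omega) (by omega) (by omega)
          obtain ⟨⟨t4, ht4, hr4⟩, _⟩ := ihB (l + A.wd + e) hG hFB hgB hg (l + A.wd + e) false t3
            okB (by omega) (by omega) (by omega)
          exact ⟨t4, by omega, trans' (trans' hr1 hr3) hr4⟩
        · exact ⟨t2, by omega, hr2⟩

end Pool.Agent.R88.TG
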