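import Pool.Agent.R88.TG.Stm

/-! # Piece NUM: the numbers of the recursive family -/

set_option autoImplicit false

namespace Pool.Agent.R88.TG

namespace NumAux

/-- relative width -/
def om : ℕ → ℕ
  | 0 => 1
  | k + 1 => 10 * om k + 1

theorem om_ge (k : ℕ) : k + 1 ≤ om k := by
  induction k with
  | zero => simp [om]
  | succ k ih => simp only [om]; omega

/-- number of bigons -/
def NN : ℕ → Bool → ℕ
  | 0, true => 0
  | 0, false => 1
  | k + 1, _ => NN k true + 1 + NN k false

/-- constant of the upper bound -/
def CC : ℕ → ℕ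
  | 0 => 2
  | k + 1 => 12 * CC k + 10 * om k + 2 + 2 * (NN k true + NN k false + 2)

theorem wd_RL (k : ℕ) : ∀ (b : Bool) (u : ℕ), (RL k b u).wd = om k * u := by
  induction k with
  | zero =>
    intro b u
    cases b <;> simp [RL, Sh.wd, om]
  | succ k ih =>
    intro b u
    cases b
    · simp only [RL, Sh.wd, ih, om]; ring
    · simp only [RL, Sh.wd, ih, om]; ring

theorem nd_RL (k : ℕ) : ∀ (b : Bool) (u : ℕ), (RL k b u).nd = NN k b := by
  induction k with
  | zero =>
    intro b u
    cases b <;> simp [RL, Sh.nd, NN]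
  | succ k ih =>
    intro b u
    cases b <;> simp only [RL, Sh.nd, ih, NN]

theorem mo_true (k u : ℕ) : (RL (k + 1) true u).mo = om k * (6 * u) + 1 := by
  simp only [RL, Sh.mo, wd_RL]

theorem mo_false (k u : ℕ) : (RL (k + 1) false u).mo = om k * (4 * u) + 1 := by
  simp only [RL, Sh.mo, wd_RL]

/-- margin of a shape which ends on the right -/
theorem mar_true (k v g : ℕ) (hg : g ≤ v) : (RL k true v).wd + g ≤ 2 * (RL k true v).mo := by
  cases k with
  | zero => simp only [RL, Sh.wd, Sh.mo]; omega
  | succ j =>
    rw [mo_true, wd_RL]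
    have h := om_ge j
    have h1 : v ≤ om j * v := Nat.le_mul_of_pos_left v (by omega)
    have e1 : om (j + 1) * v = 10 * (om j * v) + v := by simp only [om]; ring
    have e2 : om j * (6 * v) = 6 * (om j * v) := by ring
    rw [e1, e2]
    omega

theorem mar_false (k v g : ℕ) (hg1 : 1 ≤ g) (hg : 4 * g ≤ v) :
    2 * (RL k false v).mo + g ≤ (RL k false v).wd := by
  cases k with
  | zero => simp only [RL, Sh.wd, Sh.mo]; omega
  | succ j =>
    rw [mo_false, wd_RL]
    have e1 : om (j + 1) * v = 10 * (om j * v) + v := by simp only [om]; ring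
    have e2 : om j * (4 * v) = 4 * (om j * v) := by ring
    rw [e1, e2]
    omega

theorem gs_RL (k : ℕ) : ∀ (b : Bool) (u g : ℕ), 1 ≤ g → g ≤ u → Sh.gs g (RL k b u) := by
  induction k with
  | zero =>
    intro b u g h1 h2
    cases b
    · simp only [RL, Sh.gs]; exact h2
    · simp only [RL, Sh.gs]; omega
  | succ k ih =>
    intro b u g h1 h2
    cases b
    · simp only [RL, Sh.gs]
      exact ⟨ih _ _ _ h1 (by omega), ih _ _ _ h1 (by omega), h2, mar_true _ _ _ (by omega),
        mar_false _ _ _ h1 (by omega)⟩
    · simp only [RL, Sh.gs]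
      exact ⟨ih _ _ _ h1 (by omega), ih _ _ _ h1 (by omega), h2, mar_true _ _ _ (by omega),
        mar_false _ _ _ h1 (by omega)⟩

theorem uo_RL (R : ℕ) (k : ℕ) : ∀ (b : Bool) (u : ℕ), (RL k b u).uo R ≤ CC k * (u + R + 1) := by
  induction k with
  | zero =>
    intro b u
    cases b <;> simp only [RL, Sh.uo, CC] <;> omega
  | succ k ih =>
    intro b u
    have key : ∀ v w : ℕ, v ≤ 6 * u → w ≤ 6 * u → v + w = 10 * u →
        (RL k true v).uo R + (RL k false w).uo R + (RL k true v).wd + (RL k false w).wd + 2 * u +
          2 * R * ((RL k true v).nd + (RL k false w).nd + 2) ≤ CC (k + 1) * (u + R + 1) := by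
      intro v w hv hw hvw
      have h1 := ih true v
      have h2 := ih false w
      have h3 : CC k * (v + R + 1) ≤ CC k * (6 * (u + R + 1)) := Nat.mul_le_mul_left _ (by omega)
      have h4 : CC k * (w + R + 1) ≤ CC k * (6 * (u + R + 1)) := Nat.mul_le_mul_left _ (by omega)
      have h5 : (RL k true v).wd + (RL k false w).wd = om k * (10 * u) := by
        rw [wd_RL, wd_RL, ← mul_add, hvw]
      have h6 : om k * (10 * u) ≤ 10 * om k * (u + R + 1) := by
        have : om k * (10 * u) = 10 * om k * u := by ring
        rw [this]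
        exact Nat.mul_le_mul_left _ (by omega)
      have h7 : 2 * R * (NN k true + NN k false + 2) ≤
          2 * (NN k true + NN k false + 2) * (u + R + 1) := by
        have : 2 * R * (NN k true + NN k false + 2) = 2 * (NN k true + NN k false + 2) * R := by ring
        rw [this]
        exact Nat.mul_le_mul_left _ (by omega)
      rw [nd_RL, nd_RL]
      have e : CC (k + 1) * (u + R + 1) = CC k * (6 * (u + R + 1)) + CC k * (6 * (u + R + 1)) +
          10 * om k * (u + R + 1) + 2 * (u + R + 1) +
          2 * (NN k true + NN k false + 2) * (u + R + 1) := by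
        simp only [CC]; ring
      rw [e]
      omega
    cases b
    · simp only [RL, Sh.uo]
      exact key _ _ (by omega) (by omega) (by omega)
    · simp only [RL, Sh.uo]
      exact key _ _ (by omega) (by omega) (by omega)

theorem co_RL (k : ℕ) : ∀ (b : Bool) (u : ℕ), k * (om k * u) ≤ 5 * (RL k b u).co := by
  induction k with
  | zero =>
    intro b u
    simp
  | succ k ih =>
    intro b u
    have key : ∀ v w : ℕ, v + w = 10 * u → (k + 1) * (om (k + 1) * u) ≤
        5 * ((RL k true v).co + ((RL k true v).wd - (RL k true v).mo) + u + (RL k false w).co +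
          (RL k false w).mo) := by
      intro v w hvw
      cases k with
      | zero =>
        simp only [RL, Sh.co, Sh.wd, Sh.mo, om]
        omega
      | succ j =>
        have h1 := ih true v
        have h2 := ih false w
        rw [mo_true, mo_false, wd_RL]
        have hj := om_ge j
        have e1 : om (j + 1) * v - (om j * (6 * v) + 1) + 1 ≥ 4 * (om j * v) := by
          have a1 : om (j + 1) * v = 10 * (om j * v) + v := by simp only [om]; ring
          have a2 : om j * (6 * v) = 6 * (om j * v) := by ring
          rw [a1, a2]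
          omega
        have e1' : om (j + 1) * v - (om j * (6 * v) + 1) ≥ 4 * (om j * v) := by
          have a1 : om (j + 1) * v = 10 * (om j * v) + v := by simp only [om]; ring
          have a2 : om j * (6 * v) = 6 * (om j * v) := by ring
          rcases Nat.eq_zero_or_pos v with hv | hv
          · subst hv; simp
          · rw [a1, a2]
            omega
        have e2 : om j * (4 * w) = 4 * (om j * w) := by ring
        rw [e2]
        have e3 : om j * v + om j * w = 10 * (om j * u) := by
          rw [← mul_add, hvw]; ring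
        have e4 : (j + 1) * (om (j + 1) * v) + (j + 1) * (om (j + 1) * w) =
            10 * ((j + 1) * (om (j + 1) * u)) := by
          rw [← mul_add, ← mul_add, hvw]; ring
        have e5 : (j + 1 + 1) * (om (j + 1 + 1) * u) =
            10 * ((j + 1) * (om (j + 1) * u)) + 100 * (om j * u) + 10 * u + (j + 2) * u := by
          simp only [om]; ring
        have e6 : (j + 1) * u ≤ om j * u := Nat.mul_le_mul_right _ hj
        have e7 : (j + 2) * u = (j + 1) * u + u := by ring
        rw [e5, e7]
        have e8 : u ≤ om j * u := Nat.le_mul_of_pos_left u (by omega)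
        omega
    cases b
    · simp only [RL, Sh.co]
      exact key _ _ (by omega)
    · simp only [RL, Sh.co]
      exact key _ _ (by omega)

end NumAux

open NumAux

theorem sNUM : S_NUM := by
  intro k hk
  obtain ⟨j, rfl⟩ : ∃ j, k = j + 1 := ⟨k - 1, by omega⟩
  refine ⟨3 * CC (j + 1) + om (j + 1), 2 * NN (j + 1) true + 13, fun R hR => ?_⟩
  have hR1 : 1 ≤ R := by omega
  have hRR : R ≤ R ^ 2 := by nlinarith
  have hom := om_ge (j + 1)
  refine ⟨hR1, RL j true (6 * R ^ 2), RL j false (4 * R ^ 2), R ^ 2,
    R * (NN (j + 1) true + 3) + 10, rfl, ?_, ?_, ?_, ?_, ?_, ?_, ?_⟩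
  · apply gs_RL
    · omega
    · have : R * (NN (j + 1) true + 13) ≤ R * R := Nat.mul_le_mul_left _ (by omega)
      nlinarith
  · rw [nd_RL]
  · rw [nd_RL, wd_RL]
    have h1 : R * (2 * NN (j + 1) true) ≤ R * R := Nat.mul_le_mul_left _ (by omega)
    have h2 : R ^ 2 ≤ om (j + 1) * R ^ 2 := Nat.le_mul_of_pos_left _ (by omega)
    nlinarith
  · rw [wd_RL]
    exact co_RL (j + 1) true (R ^ 2)
  · have h1 := uo_RL R (j + 1) true (R ^ 2)
    refine h1.trans ?_
    have h2 : R ^ 2 + R + 1 ≤ 3 * R ^ 2 := by nlinarith
    calc CC (j + 1) * (R ^ 2 + R + 1) ≤ CC (j + 1) * (3 * R ^ 2) := Nat.mul_le_mul_left _ h2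
      _ = 3 * CC (j + 1) * R ^ 2 := by ring
      _ ≤ (3 * CC (j + 1) + om (j + 1)) * R ^ 2 := Nat.mul_le_mul_right _ (by omega)
  · rw [wd_RL]
    exact Nat.mul_le_mul_right _ (by omega)
  · rw [wd_RL]
    exact hRR.trans (Nat.le_mul_of_pos_left _ (by omega))

end Pool.Agent.R88.TG
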