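import Pool.Agent.R88.TG.Stm

set_option autoImplicit false

namespace Pool.Agent.R88.TG

theorem greedy_mem {V : Type} {𝒢 : ℕ → SimpleGraph V} {rk : V → ℕ} {v₀ : V} {S : Set V} {v : V}
    {t : ℕ} (h : Greedy 𝒢 rk v₀ S v t) : v ∈ S := by
  induction h with
  | start => exact Set.mem_singleton _
  | next _ _ _ _ _ _ => exact Set.mem_insert _ _

theorem greedy_cast {V : Type} {𝒢 : ℕ → SimpleGraph V} {rk : V → ℕ} {v₀ : V} {S S' : Set V}
    {v : V} {t : ℕ} (h : Greedy 𝒢 rk v₀ S v t) (hs : S' = S) : Greedy 𝒢 rk v₀ S' v t := by
  rw [hs]; exact h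

theorem sNODE (hAR : S_ARCR) (hAL : S_ARCL) (h1 : S_FIT1) (h2 : S_FIT2) (hTR : S_TRVR)
    (hTL : S_TRVL) : S_NODE := by
  intro X ω R T g A B e hG hgs hg hA hB l hfit hE v₀ S s hT hgr hun hleft
  have h10 : 10 ≤ g := le_trans (Nat.le_add_left _ _) hg
  obtain ⟨hfA, hArc, hfB, hEe⟩ := h2 X A B e l g hfit hgs h10
  obtain ⟨hgA, hgB, hge, hmA, hmB⟩ := hgs
  obtain ⟨fA1, fA2, fA3, fA4⟩ := h1 A g hgA h10
  obtain ⟨fB1, fB2, fB3, fB4⟩ := h1 B g hgB h10
  obtain ⟨a, ha⟩ : ∃ a, a = R * A.nd := ⟨_, rfl⟩
  obtain ⟨b, hb⟩ : ∃ b, b = R * B.nd := ⟨_, rfl⟩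
  have hgm : a + b + 4 * R + 10 ≤ g := by
    have : R * (Sh.nd (.node A e B) + 3) = a + b + 4 * R := by
      rw [ha, hb]; simp only [Sh.nd]; ring
    omega
  have huo : Sh.uo R (.node A e B) =
      A.uo R + B.uo R + A.wd + B.wd + 2 * e + 2 * a + 2 * b + 4 * R := by
    rw [ha, hb]; simp only [Sh.uo]; ring
  have hwd : Sh.wd (.node A e B) = A.wd + e + B.wd := rfl
  have hco : Sh.co (.node A e B) = A.co + (A.wd - A.mo) + e + B.co + B.mo := rfl
  have hmo : Sh.mo (.node A e B) = A.wd + 1 := rfl
  have hgA' : R * (A.nd + 3) + 10 ≤ g := by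
    have : R * (A.nd + 3) = a + 3 * R := by rw [ha]; ring
    omega
  have hgB' : R * (B.nd + 3) + 10 ≤ g := by
    have : R * (B.nd + 3) = b + 3 * R := by rw [hb]; ring
    omega
  have hle := hfit.1
  rw [hwd] at hle hun hE
  rw [huo] at hT
  have hlS : (l, false) ∈ S := greedy_mem hgr
  have hDl : ¬ X.D l := by
    intro hD
    have := ((hfA.2 l le_rfl (by omega)).1).1 hD
    have := (fA4 l l).1 this
    omega
  -- run on A
  obtain ⟨t1, i1, ht1, ht1', hg1⟩ := hA l hfA (fun _ => hEe _ (by omega) (by omega)) v₀ S s
    (by omega) hgr (fun w hw1 hw2 => hun w hw1 (by omega)) hleft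
  have hok1 : X.ok (l + A.mo, i1) := by
    rcases greedy_mem hg1 with h | h
    · exact absurd h (hun _ (by simp only; omega) (by simp only; omega))
    · exact h.1
  have hfalse : ∀ x, x ≤ X.W → X.ok (x, false) := fun x hx => ⟨hx, Or.inl rfl⟩
  -- step to the right
  obtain ⟨t2, ht2, ht2', hg2⟩ := hTR X ω R T g A l hG hfA hgA hgA' (l + A.mo) i1 v₀ _ t1
    (by rw [← ha]; omega) hg1 hok1 (by omega) (by omega)
    (by
      rintro ⟨x, c⟩ hw h3 h4
      simp only at h3 h4
      rcases Nat.lt_or_ge l x with h5 | h5
      · exact Or.inr ⟨hw, h5, h4⟩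
      · have hx : x = l := by omega
        subst hx
        rcases hw.2 with h6 | h6
        · simp only at h6; subst h6; exact Or.inl hlS
        · exact absurd h6 hDl)
    (by
      rintro c (h | h)
      · exact hun _ (by simp only; omega) (by simp only; omega) h
      · have := h.2.2; simp only at this; omega)
    (by omega) (by omega)
  rw [← ha] at ht2'
  -- across the connecting bigon, arc false
  obtain ⟨t3, ht3, ht3', hg3⟩ := hAR X ω R T (l + A.wd) e false v₀ _ t2 hG hArc (by omega)
    (by omega) hg2
    (Or.inr (Or.inr ⟨hfalse _ (by omega), by simp only; omega, by simp only; omega⟩))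
    (by
      rintro x hx1 hx2 (h | h | h)
      · have := congrArg Prod.fst h; simp only at this; omega
      · exact hun _ (by simp only; omega) (by simp only; omega) h
      · have := h.2.2; simp only at this; omega)
    (by
      rintro (h | h | h)
      · have := congrArg Prod.fst h; simp only at this; omega
      · exact hun _ (by simp only; omega) (by simp only; omega) h
      · have := h.2.2; simp only at this; omega)
  -- run on B
  obtain ⟨t4, i4, ht4, ht4', hg4⟩ := hB (l + A.wd + e) hfB
    (fun h => by
      have h' := hE (by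
        have : l + (A.wd + e + B.wd) + 1 = l + A.wd + e + B.wd + 1 := by ring
        rw [this]; exact h)
      have : l + (A.wd + e + B.wd) + 1 = l + A.wd + e + B.wd + 1 := by ring
      rw [this] at h'; exact h') v₀ _ t3 (by omega) hg3
    (by
      rintro ⟨x, c⟩ hx1 hx2 ((h | h | h) | h | h)
      · have := congrArg Prod.fst h; simp only at this hx1 hx2; omega
      · exact hun _ (by simp only at hx1 ⊢; omega) (by simp only at hx2 ⊢; omega) h
      · have := h.2.2; simp only at this hx1; omega
      · have := h.2.2; simp only at this hx1; omega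
      · have := congrArg Prod.fst h; simp only at this hx1 hx2; omega)
    (fun w _ hw _ => hEe _ (by omega) (by omega))
  have hok4 : X.ok (l + A.wd + e + B.mo, i4) := by
    rcases greedy_mem hg4 with ((h | h | h) | h | h) | h
    · have := congrArg Prod.fst h; simp only at this; omega
    · exact absurd h (hun _ (by simp only; omega) (by simp only; omega))
    · exact h.1
    · have := h.2.2; simp only at this; omega
    · have := congrArg Prod.fst h; simp only at this; omega
    · exact h.1
  -- step to the left
  obtain ⟨t5, ht5, ht5', hg5⟩ := hTL X ω R T g B (l + A.wd + e) (l + A.wd) e hG hfB hgB hgB'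
    hge hArc rfl (l + A.wd + e + B.mo) i4 v₀ _ t4 (by rw [← hb]; omega) hg4 hok4 (by omega)
    (by omega)
    (by
      rintro ⟨x, c⟩ hw h3 h4
      simp only at h3 h4
      rcases Nat.lt_or_ge (l + A.wd + e) x with h5 | h5
      · exact Or.inr ⟨hw, h5, h4⟩
      · have hx : x = l + A.wd + e := by omega
        subst hx
        rcases hw.2 with h6 | h6
        · simp only at h6; subst h6; exact Or.inl (Or.inr (Or.inr rfl))
        · exact absurd h6 hArc.right)
    (by
      intro x hx1 hx2
      refine Or.inl (Or.inr (Or.inl ⟨rfl, ?_, ?_⟩))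
      · simp only; omega
      · simp only; omega)
    (by
      rintro x hx1 hx2 (((h | h | h) | h | h) | h)
      · have := congrArg Prod.snd h; simp only at this; exact absurd this (by decide)
      · exact hun _ (by simp only; omega) (by simp only; omega) h
      · have := h.2.2; simp only at this; omega
      · have := h.1; simp only at this; exact absurd this (by decide)
      · have := congrArg Prod.snd h; simp only at this; exact absurd this (by decide)
      · have := h.2.1; simp only at this; omega)
    (by omega)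
  rw [← hb] at ht5'
  -- back across the connecting bigon, arc true
  obtain ⟨t6, ht6, ht6', hg6⟩ := hAL X ω R T (l + A.wd) e true v₀ _ t5 hG hArc (by omega)
    (by omega) hg5 (Or.inr (Or.inl (Or.inr (Or.inr rfl))))
    (by
      rintro x hx1 hx2 (h | (((h | h | h) | h | h) | h))
      · have := congrArg Prod.fst h; simp only at this; omega
      · have := congrArg Prod.snd h; simp only at this; exact absurd this (by decide)
      · exact hun _ (by simp only; omega) (by simp only; omega) h
      · have := h.2.2; simp only at this; omega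
      · have := h.1; simp only at this; exact absurd this (by decide)
      · have := congrArg Prod.snd h; simp only at this; exact absurd this (by decide)
      · have := h.2.1; simp only at this; omega)
  refine ⟨t6, true, by rw [hco]; omega, by rw [huo]; omega, ?_⟩
  rw [hwd, hmo, ← add_assoc l A.wd 1]
  refine greedy_cast hg6 ?_
  ext ⟨x, c⟩
  constructor
  · rintro (h | ⟨h3, h4, h5⟩)
    · exact Or.inl (Or.inr (Or.inl (Or.inl (Or.inr (Or.inl h)))))
    · simp only at h4 h5
      rcases Nat.lt_or_ge (l + A.wd) x with h6 | h6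
      · rcases Nat.lt_or_ge x (l + A.wd + e) with h7 | h7
        · cases c with
          | true => exact Or.inr ⟨rfl, h6, h7⟩
          | false =>
            exact Or.inl (Or.inr (Or.inl (Or.inr (Or.inl ⟨rfl, h6, h7⟩))))
        · rcases Nat.lt_or_ge (l + A.wd + e) x with h8 | h8
          · exact Or.inl (Or.inr (Or.inr ⟨h3, h8, by simp only; omega⟩))
          · have hx : x = l + A.wd + e := by omega
            subst hx
            rcases h3.2 with h9 | h9
            · simp only at h9; subst h9
              exact Or.inl (Or.inr (Or.inl (Or.inr (Or.inr rfl))))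
            · exact absurd h9 hArc.right
      · exact Or.inl (Or.inr (Or.inl (Or.inl (Or.inr (Or.inr ⟨h3, h4, h6⟩)))))
  · have hD : ∀ y, l + A.wd + 1 ≤ y → y < l + A.wd + e → X.ok (y, c) := fun y hy1 hy2 =>
      ⟨by simp only; omega, Or.inr (hArc.inner y (by omega) hy2)⟩
    rintro ((h | ((h | h | h) | h | h) | h) | h)
    · have h3 := congrArg Prod.fst h
      have h4 := congrArg Prod.snd h
      simp only at h3 h4
      refine Or.inr ⟨hD _ (by omega) (by omega), ?_, ?_⟩ <;> simp only <;> omega
    · have h3 := congrArg Prod.fst h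
      simp only at h3
      refine Or.inr ⟨hD _ (by omega) (by omega), ?_, ?_⟩ <;> simp only <;> omega
    · exact Or.inl h
    · exact Or.inr ⟨h.1, h.2.1, by have := h.2.2; simp only at this ⊢; omega⟩
    · obtain ⟨-, h4, h5⟩ := h
      simp only at h4 h5
      refine Or.inr ⟨hD _ (by omega) (by omega), ?_, ?_⟩ <;> simp only <;> omega
    · have h3 := congrArg Prod.fst h
      have h4 := congrArg Prod.snd h
      simp only at h3 h4
      subst h3 h4
      refine Or.inr ⟨hfalse _ (by omega), ?_, ?_⟩ <;> simp only <;> omega
    · obtain ⟨h3, h4, h5⟩ := h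
      simp only at h4 h5
      refine Or.inr ⟨h3, ?_, ?_⟩ <;> simp only <;> omega
    · obtain ⟨-, h4, h5⟩ := h
      simp only at h4 h5
      refine Or.inr ⟨hD _ (by omega) (by omega), ?_, ?_⟩ <;> simp only <;> omega

end Pool.Agent.R88.TG
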