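import Pool.Agent.R88.TG.Stm

set_option autoImplicit false

open MeasureTheory Filter Topology

namespace Pool.Agent.R88.TG

lemma prob_meas {n : ℕ} (H : Bool → SimpleGraph (Fin n)) (S : Set (SimpleGraph (Fin n))) :
    ((PMF.uniformOfFintype Bool).map H).toMeasure S
      = (PMF.uniformOfFintype Bool).toMeasure (H ⁻¹' S) := by
  have hH : Measurable H := measurable_of_countable H
  have hS : MeasurableSet S := trivial
  rw [PMF.toMeasure_map_apply H (PMF.uniformOfFintype Bool) S hH hS]

lemma prob_compl {n : ℕ} (H : Bool → SimpleGraph (Fin n)) (hH : H false ≠ H true) (b : Bool) :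
    ((PMF.uniformOfFintype Bool).map H).toMeasure {H b}ᶜ = 1 / 2 := by
  rw [prob_meas]
  have h1 : H ⁻¹' {H b}ᶜ = {!b} := by
    ext c
    simp only [Set.mem_preimage, Set.mem_compl_iff, Set.mem_singleton_iff]
    constructor
    · intro h
      cases b <;> cases c <;> simp_all
    · rintro rfl
      cases b
      · exact fun h => hH h.symm
      · exact hH
  rw [h1, PMF.toMeasure_apply_singleton _ _ (measurableSet_singleton _)]
  simp

theorem sPROB : S_PROB := by
  intro n H hH R T
  set ν := ((PMF.uniformOfFintype Bool).map H) with hν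
  have hprob : IsProbabilityMeasure ν.toMeasure := inferInstance
  have hsub : {𝒢 : ℕ → SimpleGraph (Fin n) | ¬ ∃ ω : ℕ → Bool, (∀ t, 𝒢 t = H (ω t)) ∧ Good ω R T} ⊆
      (⋃ t : ℕ, Function.eval t ⁻¹' (Set.range H)ᶜ) ∪
      (⋃ s ∈ Finset.range (T + 1), ⋃ b : Bool,
        Set.pi (Finset.Ioc s (s + R) : Set ℕ) (fun _ => ({H b}ᶜ : Set (SimpleGraph (Fin n))))) := by
    intro 𝒢 hG
    by_contra hcon
    rw [Set.mem_union, not_or] at hcon
    obtain ⟨h1, h2⟩ := hcon
    simp only [Set.mem_iUnion, Set.mem_preimage, Function.eval, Set.mem_compl_iff, not_exists,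
      not_not] at h1
    choose ω hω using h1
    apply hG
    refine ⟨ω, fun t => (hω t).symm, ?_⟩
    intro s hs b
    by_contra hno
    apply h2
    simp only [Set.mem_iUnion]
    refine ⟨s, Finset.mem_range.2 (by omega), b, ?_⟩
    intro t ht
    have ht' := Finset.mem_Ioc.1 (Finset.mem_coe.1 ht)
    simp only [Set.mem_compl_iff, Set.mem_singleton_iff]
    intro h
    apply hno
    refine ⟨t, ht'.1, ht'.2, ?_⟩
    rw [← hω t] at h
    by_contra hb
    cases hb1 : b <;> cases hc : ω t <;> simp_all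
  refine (measure_mono hsub).trans ?_
  refine (measure_union_le _ _).trans ?_
  have hz : law ν (⋃ t : ℕ, Function.eval t ⁻¹' (Set.range H)ᶜ) = 0 := by
    rw [measure_iUnion_null_iff]
    intro t
    have hm : MeasurableSet ((Set.range H)ᶜ : Set (SimpleGraph (Fin n))) := trivial
    unfold law
    rw [(measurePreserving_eval_infinitePi (fun _ : ℕ => ν.toMeasure) t).measure_preimage
      hm.nullMeasurableSet, hν, prob_meas]
    have : H ⁻¹' (Set.range H)ᶜ = ∅ := by
      ext c
      simp only [Set.mem_preimage, Set.mem_compl_iff, Set.mem_range, Set.mem_empty_iff_false,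
        iff_false, not_not]
      exact ⟨c, rfl⟩
    rw [this]; simp
  rw [hz, zero_add]
  have hw : ∀ (s : ℕ) (b : Bool), law ν (Set.pi (Finset.Ioc s (s + R) : Set ℕ)
      (fun _ => ({H b}ᶜ : Set (SimpleGraph (Fin n))))) = (1 / 2) ^ R := by
    intro s b
    unfold law
    rw [Measure.infinitePi_pi (fun _ : ℕ => ν.toMeasure) (fun _ _ => trivial)]
    rw [Finset.prod_congr rfl (fun _ _ => prob_compl H hH b)]
    simp
  calc law ν (⋃ s ∈ Finset.range (T + 1), ⋃ b : Bool,
        Set.pi (Finset.Ioc s (s + R) : Set ℕ) (fun _ => ({H b}ᶜ : Set (SimpleGraph (Fin n)))))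
      ≤ ∑ s ∈ Finset.range (T + 1), law ν (⋃ b : Bool,
        Set.pi (Finset.Ioc s (s + R) : Set ℕ) (fun _ => ({H b}ᶜ : Set (SimpleGraph (Fin n))))) :=
        measure_biUnion_finset_le _ _
    _ ≤ ∑ s ∈ Finset.range (T + 1), ∑ b : Bool, (1 / 2 : ENNReal) ^ R := by
        refine Finset.sum_le_sum (fun s _ => ?_)
        refine (measure_iUnion_fintype_le _ _).trans ?_
        exact Finset.sum_le_sum (fun b _ => (hw s b).le)
    _ = 2 * ((T : ENNReal) + 1) * (1 / 2) ^ R := by
        simp only [Finset.sum_const, Finset.card_range, Finset.card_univ, Fintype.card_bool,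
          nsmul_eq_mul]
        push_cast
        ring

theorem sLIM : S_LIM := by
  intro K δ hδ
  have h1 : Tendsto (fun R : ℕ => 2 * (4 * (K : ℝ) * (R : ℝ) ^ 2 + 1) * (1 / 2) ^ R) atTop (𝓝 0) := by
    have ha := tendsto_pow_const_mul_const_pow_of_abs_lt_one 2 (r := (1 / 2 : ℝ))
      (by rw [abs_of_pos] <;> norm_num)
    have hb := tendsto_pow_const_mul_const_pow_of_abs_lt_one 0 (r := (1 / 2 : ℝ))
      (by rw [abs_of_pos] <;> norm_num)
    have hc := (ha.const_mul (8 * (K : ℝ))).add (hb.const_mul 2)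
    simp only [mul_zero, add_zero] at hc
    refine hc.congr (fun R => ?_)
    ring
  have h2 : Tendsto (fun R : ℕ => ENNReal.ofReal
      (2 * (4 * (K : ℝ) * (R : ℝ) ^ 2 + 1) * (1 / 2) ^ R)) atTop (𝓝 0) := by
    have := ENNReal.tendsto_ofReal h1
    rwa [ENNReal.ofReal_zero] at this
  have h3 : ∀ᶠ R : ℕ in atTop, ENNReal.ofReal
      (2 * (4 * (K : ℝ) * (R : ℝ) ^ 2 + 1) * (1 / 2) ^ R) < δ :=
    h2.eventually_lt_const (pos_iff_ne_zero.2 hδ)
  obtain ⟨R₁, hR⟩ := eventually_atTop.1 h3
  refine ⟨R₁, fun R hRR => ?_⟩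
  refine le_trans (le_of_eq ?_) (hR R hRR).le
  rw [ENNReal.ofReal_mul (by positivity), ENNReal.ofReal_mul (by norm_num),
    ENNReal.ofReal_pow (by norm_num)]
  congr 1
  · congr 1
    · norm_num
    · rw [ENNReal.ofReal_add (by positivity) (by norm_num), ENNReal.ofReal_one]
      congr 1
      rw [show (4 * (K : ℝ) * (R : ℝ) ^ 2) = ((4 * K * R ^ 2 : ℕ) : ℝ) by push_cast; ring,
        ENNReal.ofReal_natCast]
  · congr 1
    rw [ENNReal.ofReal_div_of_pos (by norm_num)]
    norm_num

end Pool.Agent.R88.TG
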