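import Pool.Agent.R88.TG.Stm

/-! Project TG (MP_041baa_co): pieces SGL and DBL, the greedy run on a path and on a leaf bigon. -/

set_option autoImplicit false

namespace Pool.Agent.R88.TG

namespace SGL

section General

variable {V : Type} {𝒢 : ℕ → SimpleGraph V} {rk : V → ℕ} {v₀ : V}

lemma reach_le {s t : ℕ} {v u : V} (h : Reach 𝒢 s v t u) : s ≤ t := by
  induction h with
  | refl => exact le_refl _
  | stay _ ih => omega
  | move _ _ ih => omega

lemma reach_self {s t : ℕ} {v w : V} (h : Reach 𝒢 s v t w) (ht : t ≤ s) : w = v := by
  cases h with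
  | refl => rfl
  | stay h => have := reach_le h; omega
  | move h _ => have := reach_le h; omega

lemma reach_succ {s : ℕ} {v w : V} (h : Reach 𝒢 s v (s + 1) w) :
    w = v ∨ (𝒢 (s + 1)).Adj v w := by
  generalize ht : s + 1 = t at h
  cases h with
  | refl => omega
  | stay h => exact Or.inl (reach_self h (by omega))
  | @move t u w h a =>
    have e := reach_self h (by omega)
    subst e
    obtain rfl : s = t := by omega
    exact Or.inr a

lemma greedy_mem {S : Set V} {v : V} {t : ℕ} (h : Greedy 𝒢 rk v₀ S v t) : v ∈ S := by
  cases h with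
  | start => simp
  | next _ _ _ _ _ => simp

lemma greedy_step {S : Set V} {v u : V} {s : ℕ} (h : Greedy 𝒢 rk v₀ S v s) (hu : u ∉ S)
    (ha : (𝒢 (s + 1)).Adj v u)
    (hmin : ∀ w, w ∉ S → (𝒢 (s + 1)).Adj v w → rk u ≤ rk w) :
    Greedy 𝒢 rk v₀ (insert u S) u (s + 1) := by
  refine Greedy.next h hu (Reach.move Reach.refl ha) ?_ ?_
  · intro t' ht' w hw hr
    have e := reach_self hr (by omega)
    exact hw (e ▸ greedy_mem h)
  · intro w hw hr
    rcases reach_succ hr with e | e
    · exact absurd (e ▸ greedy_mem h) hw
    · exact hmin w hw e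

end General

lemma rk_E {X : Env} {w : ℕ × Bool} (h : X.E w.1) : 2 * (2 * X.W + 2) ≤ X.rk w := by
  unfold Env.rk
  rw [if_pos h]
  omega

lemma rk_nE {X : Env} {w : ℕ × Bool} (h : ¬ X.E w.1) (hw : X.ok w) :
    X.rk w < 2 * (2 * X.W + 2) := by
  have h1 := hw.1
  unfold Env.rk
  rw [if_neg h]
  split_ifs <;> omega

end SGL

open SGL

theorem sSGL : S_SGL := by
  intro X ω R T L hL l hF hright v₀ S s hT hg hS hleft
  obtain ⟨hW, hx⟩ := hF
  simp only [Sh.wd, Sh.dd, Sh.md, Sh.ee, iff_false] at hW hx
  simp only [Sh.wd, Sh.co, Sh.uo, Sh.mo] at *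
  have key : ∀ k, 1 ≤ k → k ≤ L → Greedy (X.run ω) X.rk v₀
      (S ∪ {w | X.ok w ∧ l < w.1 ∧ w.1 ≤ l + k}) (l + k, false) (s + k) := by
    intro k hk
    induction k, hk using Nat.le_induction with
    | base =>
      intro _
      have h1 : Greedy (X.run ω) X.rk v₀ (insert (l + 1, false) S) (l + 1, false) (s + 1) := by
        refine greedy_step hg (hS _ (by simp) (by simpa using hL)) ?_ ?_
        · refine ⟨⟨by simp; omega, Or.inl rfl⟩, ⟨by simp; omega, Or.inl rfl⟩, Or.inl ⟨rfl, Or.inl rfl, ?_⟩⟩
          exact fun h => (hx l (le_refl _) (by omega)).2.1 h.1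
        · rintro ⟨y, b⟩ hw ⟨-, hok, h | h⟩
          · have h1 : y = l + 1 := h.1
            subst h1
            have h2 : b = false := by
              rcases hok.2 with h2 | h2
              · exact h2
              · exact absurd h2 (hx _ (by omega) (by simp; omega)).1
            subst h2
            exact le_refl _
          · have h1 : l = y + 1 := h.1
            have h2 := hleft (y, b) hok h1.symm hw
            have h3 := rk_E (X := X) (w := (y, b)) h2
            have h4 := rk_nE (X := X) (w := (l + 1, false)) (hx _ (by simp) (by simp; omega)).2.2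
              ⟨by simp; omega, Or.inl rfl⟩
            omega
      have e : S ∪ {w | X.ok w ∧ l < w.1 ∧ w.1 ≤ l + 1} = insert (l + 1, false) S := by
        ext ⟨y, b⟩
        simp only [Set.mem_union, Set.mem_setOf_eq, Set.mem_insert_iff, Prod.mk.injEq]
        constructor
        · rintro (h | ⟨h, h1, h2⟩)
          · exact Or.inr h
          · left
            have hy : y = l + 1 := by omega
            subst hy
            rcases h.2 with h3 | h3
            · exact ⟨rfl, h3⟩
            · exact absurd h3 (hx _ (by simp) (by simp; omega)).1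
        · rintro (⟨rfl, rfl⟩ | h)
          · exact Or.inr ⟨⟨by simp; omega, Or.inl rfl⟩, by omega, by omega⟩
          · exact Or.inl h
      rw [e]
      exact h1
    | succ k hk ih =>
      intro hk'
      have ih := ih (by omega)
      have h1 : Greedy (X.run ω) X.rk v₀
          (insert (l + (k + 1), false) (S ∪ {w | X.ok w ∧ l < w.1 ∧ w.1 ≤ l + k}))
          (l + (k + 1), false) (s + k + 1) := by
        refine greedy_step ih ?_ ?_ ?_
        · rintro (h | h)
          · exact hS _ (by simp) (by simpa using hk') h
          · have := h.2.2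
            simp at this
        · refine ⟨⟨by simp; omega, Or.inl rfl⟩, ⟨by simp; omega, Or.inl rfl⟩, Or.inl ⟨by simp; omega, Or.inl rfl, ?_⟩⟩
          exact fun h => (hx (l + k) (by omega) (by omega)).2.1 h.1
        · rintro ⟨y, b⟩ hw ⟨-, hok, h | h⟩
          · have h1 : y = l + k + 1 := h.1
            subst h1
            have h2 : b = false := by
              rcases hok.2 with h2 | h2
              · exact h2
              · exact absurd h2 (hx _ (by simp only []; omega) (by simp only []; omega)).1
            subst h2
            exact le_refl _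
          · have h1 : l + k = y + 1 := h.1
            exfalso
            apply hw
            by_cases hk1 : k = 1
            · subst hk1
              have hy : y = l := by omega
              subst hy
              have h2 : b = false := by
                rcases hok.2 with h2 | h2
                · exact h2
                · exact absurd h2 (hx _ (by simp) (by simp)).1
              subst h2
              exact Or.inl (greedy_mem hg)
            · exact Or.inr ⟨hok, by simp only []; omega, by simp only []; omega⟩
      have e : S ∪ {w | X.ok w ∧ l < w.1 ∧ w.1 ≤ l + (k + 1)} =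
          insert (l + (k + 1), false) (S ∪ {w | X.ok w ∧ l < w.1 ∧ w.1 ≤ l + k}) := by
        ext ⟨y, b⟩
        simp only [Set.mem_union, Set.mem_setOf_eq, Set.mem_insert_iff, Prod.mk.injEq]
        constructor
        · rintro (h | ⟨h, h1, h2⟩)
          · exact Or.inr (Or.inl h)
          · by_cases hy : y = l + (k + 1)
            · left
              subst hy
              rcases h.2 with h3 | h3
              · exact ⟨rfl, h3⟩
              · exact absurd h3 (hx _ (by simp only []; omega) (by simp only []; omega)).1
            · exact Or.inr (Or.inr ⟨h, h1, by omega⟩)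
        · rintro (⟨rfl, rfl⟩ | h | ⟨h, h1, h2⟩)
          · exact Or.inr ⟨⟨by simp only []; omega, Or.inl rfl⟩, by omega, by omega⟩
          · exact Or.inl h
          · exact Or.inr ⟨h, h1, by omega⟩
      rw [e]
      exact h1
  exact ⟨s + L, false, le_refl _, le_refl _, key L hL (le_refl _)⟩

theorem sDBL (hR : S_ARCR) (hLf : S_ARCL) (h3 : S_FIT3) : S_DBL := by
  intro X ω R T L hgood hRL l hF hright v₀ S s hT hg hS hleft
  obtain ⟨hArc, hnE⟩ := h3 X L l 10 hF (by omega) (le_refl _)
  obtain ⟨hW, hx⟩ := hF
  simp only [Sh.wd, Sh.dd, Sh.md, Sh.ee, iff_false] at hW hx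
  simp only [Sh.wd, Sh.co, Sh.uo, Sh.mo] at *
  -- first step
  have g1 : Greedy (X.run ω) X.rk v₀ (insert (l + 1, false) S) (l + 1, false) (s + 1) := by
    refine greedy_step hg (hS _ (by simp only []; omega) (by simp only []; omega)) ?_ ?_
    · refine ⟨⟨by simp only []; omega, Or.inl rfl⟩, ⟨by simp only []; omega, Or.inl rfl⟩,
        Or.inl ⟨rfl, Or.inl rfl, ?_⟩⟩
      intro h
      have := (hx l (le_refl _) (by omega)).2.1.1 h.1
      omega
    · rintro ⟨y, b⟩ hw ⟨-, hok, h | h⟩
      · have h1 : y = l + 1 := h.1
        subst h1
        unfold Env.rk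
        cases b
        · exact le_refl _
        · simp
      · have h1 : l = y + 1 := h.1
        have h2 := hleft (y, b) hok h1.symm hw
        have h3 := rk_E (X := X) (w := (y, b)) h2
        have h4 := rk_nE (X := X) (w := (l + 1, false))
          (hx _ (by simp only []; omega) (by simp only []; omega)).2.2
          ⟨by simp only []; omega, Or.inl rfl⟩
        omega
  -- the arc `false`
  obtain ⟨t2, ht2, ht2', g2⟩ := hR X ω R T l L false v₀ _ (s + 1) hgood hArc (by omega) (by omega)
    g1 (Or.inr (greedy_mem hg))
    (by
      rintro x hx1 hx2 (h | h)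
      · have := congrArg Prod.fst h
        simp only [] at this
        omega
      · exact hS (x, false) (by simp only []; omega) (by simp only []; omega) h)
    (by
      rintro (h | h)
      · have := congrArg Prod.fst h
        simp only [] at this
        omega
      · exact hS (l + L, false) (by simp only []; omega) (by simp only []; omega) h)
  -- the turn
  have hnot : ∀ x, l + 1 ≤ x → x < l + L → (x, true) ∉ insert (l + 1, false) S ∪
      {w : ℕ × Bool | (w.2 = false ∧ l + 1 ≤ w.1 ∧ w.1 < l + L) ∨ w = (l + L, false)} := by
    rintro x hx1 hx2 ((h | h) | (h | h))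
    · have := congrArg Prod.snd h
      simp at this
    · exact hS (x, true) (by simp only []; omega) (by simp only []; omega) h
    · have := h.1
      simp at this
    · have := congrArg Prod.snd h
      simp at this
  have g3 := greedy_step (u := (l + L - 1, true)) g2 (hnot _ (by omega) (by omega))
    (by
      refine ⟨⟨by simp only []; omega, Or.inl rfl⟩, ⟨by simp only []; omega, Or.inr ?_⟩,
        Or.inr ⟨by simp only []; omega, Or.inr (Or.inr ?_), ?_⟩⟩
      · exact (hx (l + L - 1) (by omega) (by omega)).1.2 ⟨by omega, by omega⟩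
      · intro h
        have := (hx (l + L) (by omega) (by omega)).1.1 h
        omega
      · intro h
        have := (hx (l + L - 1) (by omega) (by omega)).2.1.1 h.1
        omega)
    (by
      rintro ⟨y, b⟩ hw ⟨-, hok, h | h⟩
      · have h1 : y = l + L + 1 := h.1
        subst h1
        have h2 := hright ⟨hok.1, Or.inl rfl⟩
        have h3 := rk_E (X := X) (w := (l + L + 1, b)) h2
        have h4 := rk_nE (X := X) (w := (l + L - 1, true)) (hnE _ (by simp only []; omega)
          (by simp only []; omega)) ⟨by simp only []; omega,
            Or.inr ((hx (l + L - 1) (by omega) (by omega)).1.2 ⟨by omega, by omega⟩)⟩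
        omega
      · have h1 : l + L = y + 1 := h.1
        have h2 : y = l + L - 1 := by omega
        subst h2
        cases b
        · exact absurd (Or.inr (Or.inl ⟨rfl, by simp only []; omega, by simp only []; omega⟩)) hw
        · exact le_refl _)
  -- the arc `true`
  obtain ⟨t3, ht3, ht3', g4⟩ := hLf X ω R T l L true v₀ _ (t2 + 1) hgood hArc (by omega) (by omega)
    g3 (Or.inr (Or.inr (Or.inr rfl)))
    (by
      rintro x hx1 hx2 (h | h)
      · have := congrArg Prod.fst h
        simp only [] at this
        omega
      · exact hnot x hx1 (by omega) h)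
  refine ⟨t3, true, by omega, by omega, ?_⟩
  convert g4 using 1
  ext ⟨y, b⟩
  simp only [Set.mem_union, Set.mem_setOf_eq, Set.mem_insert_iff, Prod.mk.injEq]
  constructor
  · rintro (h | ⟨hok, h1, h2⟩)
    · exact Or.inl (Or.inr (Or.inl (Or.inr h)))
    · by_cases hy : y = l + L
      · have hb : b = false := by
          rcases hok.2 with h3 | h3
          · exact h3
          · have := (hx y (by omega) (by omega)).1.1 h3
            omega
        exact Or.inl (Or.inr (Or.inr (Or.inr ⟨hy, hb⟩)))
      · cases b
        · exact Or.inl (Or.inr (Or.inr (Or.inl ⟨rfl, by omega, by omega⟩)))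
        · exact Or.inr ⟨rfl, by omega, by omega⟩
  · rintro ((⟨h1, h2⟩ | ((⟨h1, h2⟩ | h) | (⟨h1, h2, h3⟩ | ⟨h1, h2⟩))) | ⟨h1, h2, h3⟩)
    · exact Or.inr ⟨⟨by simp only []; omega,
        Or.inr ((hx y (by omega) (by omega)).1.2 ⟨by omega, by omega⟩)⟩, by omega, by omega⟩
    · exact Or.inr ⟨⟨by simp only []; omega,
        Or.inr ((hx y (by omega) (by omega)).1.2 ⟨by omega, by omega⟩)⟩, by omega, by omega⟩
    · exact Or.inl h
    · exact Or.inr ⟨⟨by simp only []; omega,
        Or.inr ((hx y (by omega) (by omega)).1.2 ⟨by omega, by omega⟩)⟩, by omega, by omega⟩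
    · exact Or.inr ⟨⟨by simp only []; omega, Or.inl h2⟩, by omega, by omega⟩
    · exact Or.inr ⟨⟨by simp only []; omega,
        Or.inr ((hx y (by omega) (by omega)).1.2 ⟨by omega, by omega⟩)⟩, by omega, by omega⟩

end Pool.Agent.R88.TG
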