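import Pool.Agent.R88.TG.Stm

/-!
# Piece TREE of project TG: the snapshots are trees
-/

set_option autoImplicit false

namespace Pool.Agent.R88.TG

/-- right halves of the bigons -/
def Sh.hh : Sh → ℕ → ℕ → Prop
  | .sgl _, _, _ => False
  | .dbl L, l, x => l + L / 2 < x ∧ x < l + L
  | .node A e B, l, x =>
      A.hh l x ∨ (l + A.wd + e / 2 < x ∧ x < l + A.wd + e) ∨ B.hh (l + A.wd + e) x

theorem hh_facts (h1 : S_FIT1) (g : ℕ) (hg : 10 ≤ g) : ∀ (F : Sh), F.gs g → ∀ l x,
    (F.hh l x → F.dd l x) ∧ (F.hh l x → F.dd l (x + 1) → F.hh l (x + 1)) ∧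
    (F.dd l x → ¬ F.dd l (x + 1) → F.hh l x) ∧
    (F.dd l x → ¬ F.hh l x → F.hh l (x + 1) → F.md l x) ∧
    (F.hh l (x + 1) → F.dd l x) ∧
    (F.md l x → ¬ F.hh l x ∧ F.hh l (x + 1) ∧ F.dd l x ∧ F.dd l (x + 1)) := by
  intro F
  induction F with
  | sgl L =>
    intro _ l x
    simp [Sh.hh, Sh.dd, Sh.md]
  | dbl L =>
    intro hL l x
    simp only [Sh.gs] at hL
    simp only [Sh.hh, Sh.dd, Sh.md]
    refine ⟨?_, ?_, ?_, ?_, ?_, ?_⟩ <;> omega
  | node A e B ihA ihB =>
    intro hgs l x
    have hgs' := hgs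
    simp only [Sh.gs] at hgs
    obtain ⟨gA, gB, he, -, -⟩ := hgs
    obtain ⟨a1, a2, a3, a4, a5, a6⟩ := ihA gA l x
    obtain ⟨b1, b2, b3, b4, b5, b6⟩ := ihB gB (l + A.wd + e) x
    obtain ⟨-, -, -, fA⟩ := h1 A g gA hg
    obtain ⟨-, -, -, fB⟩ := h1 B g gB hg
    obtain ⟨c1, c2, -⟩ := fA l x
    obtain ⟨c1', -, -⟩ := fA l (x + 1)
    obtain ⟨d1, d2, -⟩ := fB (l + A.wd + e) x
    obtain ⟨d1', -, -⟩ := fB (l + A.wd + e) (x + 1)
    obtain ⟨a1', -⟩ := ihA gA l (x + 1)
    obtain ⟨b1', -⟩ := ihB gB (l + A.wd + e) (x + 1)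
    simp only [Sh.hh, Sh.dd, Sh.md]
    refine ⟨?_, ?_, ?_, ?_, ?_, ?_⟩
    · rintro (h | h | h)
      · exact Or.inl (a1 h)
      · right; left; omega
      · exact Or.inr (Or.inr (b1 h))
    · rintro (h | h | h) (k | k | k)
      · exact Or.inl (a2 h k)
      · have := c1 (a1 h); omega
      · have := c1 (a1 h); have := d1' k; omega
      · have := c1' k; omega
      · right; left; omega
      · have := d1' k; omega
      · have := d1 (b1 h); have := c1' k; omega
      · have := d1 (b1 h); omega
      · exact Or.inr (Or.inr (b2 h k))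
    · rintro (h | h | h) k
      · exact Or.inl (a3 h (fun z => k (Or.inl z)))
      · right; left
        have : ¬ (l + A.wd < x + 1 ∧ x + 1 < l + A.wd + e) := fun z => k (Or.inr (Or.inl z))
        omega
      · exact Or.inr (Or.inr (b3 h (fun z => k (Or.inr (Or.inr z)))))
    · rintro (h | h | h) k (m | m | m)
      · exact Or.inl (a4 h (fun z => k (Or.inl z)) m)
      · have := c1 h; omega
      · have := c1 h; have := d1' (b1' m); omega
      · have := c1' (a1' m); omega
      · have : ¬ (l + A.wd + e / 2 < x ∧ x < l + A.wd + e) := fun z => k (Or.inr (Or.inl z))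
        right; left; omega
      · have := d1' (b1' m); omega
      · have := d1 h; have := c1' (a1' m); omega
      · have := d1 h; omega
      · exact Or.inr (Or.inr (b4 h (fun z => k (Or.inr (Or.inr z))) m))
    · rintro (h | h | h)
      · exact Or.inl (a5 h)
      · right; left; omega
      · exact Or.inr (Or.inr (b5 h))
    · rintro (h | h | h)
      · obtain ⟨e1, e2, e3, e4⟩ := a6 h
        have := c2 h
        refine ⟨?_, Or.inl e2, Or.inl e3, Or.inl e4⟩
        rintro (k | k | k)
        · exact e1 k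
        · omega
        · have := d1 (b1 k); omega
      · subst h
        refine ⟨?_, Or.inr (Or.inl (by omega)), Or.inr (Or.inl (by omega)),
          Or.inr (Or.inl (by omega))⟩
        rintro (k | k | k)
        · have := c1 (a1 k); omega
        · omega
        · have := d1 (b1 k); omega
      · obtain ⟨e1, e2, e3, e4⟩ := b6 h
        have := d2 h
        refine ⟨?_, Or.inr (Or.inr e2), Or.inr (Or.inr e3), Or.inr (Or.inr e4)⟩
        rintro (k | k | k)
        · have := c1 (a1 k); omega
        · omega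
        · exact e1 k

open Classical in
/-- the parent -/
noncomputable def par (X : Env) (H : ℕ → Prop) (b : Bool) (p : ℕ × Bool) : ℕ × Bool :=
  if H p.1 ∧ p.2 = b then (p.1 + 1, if X.D (p.1 + 1) then b else false)
  else (p.1 - 1, if X.D (p.1 - 1) then (if X.D p.1 then p.2 else !b) else false)

open Classical in
/-- the measure -/
noncomputable def mea (X : Env) (H : ℕ → Prop) (b : Bool) (p : ℕ × Bool) : ℕ :=
  if H p.1 ∧ p.2 = b then 2 * X.W + 1 - p.1 else p.1


section Abstract

variable (X : Env) (H : ℕ → Prop) (b : Bool) (h0 : ¬ X.D 0) (hW : ¬ X.D X.W)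
  (q1 : ∀ x, x ≤ X.W → H x → X.D x) (q2 : ∀ x, x + 1 ≤ X.W → H x → X.D (x + 1) → H (x + 1))
  (q3 : ∀ x, x + 1 ≤ X.W → X.D x → ¬ X.D (x + 1) → H x)
  (q4 : ∀ x, x + 1 ≤ X.W → X.D x → ¬ H x → H (x + 1) → X.M x)
  (q5 : ∀ x, x + 1 ≤ X.W → H (x + 1) → X.D x)
  (q6 : ∀ x, x + 1 ≤ X.W → X.M x → ¬ H x ∧ H (x + 1) ∧ X.D x ∧ X.D (x + 1))

include h0 hW q1 q2 q3 q4 q5 q6

theorem par_main (p : ℕ × Bool) (hp : X.ok p) (hne : p ≠ (0, false)) :
    X.ok (par X H b p) ∧ (X.G b).Adj p (par X H b p) ∧ mea X H b (par X H b p) < mea X H b p := by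
  obtain ⟨x, c⟩ := p
  obtain ⟨hx, hc⟩ := hp
  simp only at hx hc
  by_cases hH : H x ∧ c = b
  · obtain ⟨hHx, rfl⟩ := hH
    have hD := q1 x hx hHx
    have hxW : x ≠ X.W := by rintro rfl; exact hW hD
    have hM : ¬ X.M x := fun h => (q6 x (by omega) h).1 hHx
    by_cases hD' : X.D (x + 1)
    · have e1 : par X H c (x, c) = (x + 1, c) := by simp [par, hHx, hD']
      have hH' := q2 x (by omega) hHx hD'
      have hok : X.ok (x + 1, c) := ⟨by simp only; omega, Or.inr hD'⟩
      rw [e1]
      refine ⟨hok, ⟨⟨hx, hc⟩, hok, Or.inl ⟨rfl, Or.inl rfl, fun h => hM h.1⟩⟩, ?_⟩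
      simp only [mea, hH', hHx, and_self, if_true]
      omega
    · have e1 : par X H c (x, c) = (x + 1, false) := by simp [par, hHx, hD']
      have hok : X.ok (x + 1, false) := ⟨by simp only; omega, Or.inl rfl⟩
      have hH' : ¬ H (x + 1) := fun h => hD' (q1 _ (by omega) h)
      rw [e1]
      refine ⟨hok, ⟨⟨hx, hc⟩, hok, Or.inl ⟨rfl, Or.inr (Or.inr hD'), fun h => hM h.1⟩⟩, ?_⟩
      simp only [mea, hH', hHx, and_self, if_true, false_and, if_false]
      omega
  · have hx0 : x ≠ 0 := by
      rintro rfl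
      rcases hc with rfl | hc
      · exact hne rfl
      · exact h0 hc
    obtain ⟨y, rfl⟩ : ∃ y, x = y + 1 := ⟨x - 1, by omega⟩
    have hmea : mea X H b (y + 1, c) = y + 1 := by simp only [mea, hH, if_false]
    rw [hmea]
    by_cases hD : X.D y
    · by_cases hD' : X.D (y + 1)
      · have e1 : par X H b (y + 1, c) = (y, c) := by
          unfold par
          rw [if_neg hH]
          simp [hD, hD']
        have hok : X.ok (y, c) := ⟨by simp only; omega, Or.inr hD⟩
        have hHy : ¬ (H y ∧ c = b) := fun h => hH ⟨q2 y hx h.1 hD', h.2⟩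
        rw [e1]
        refine ⟨hok, ⟨⟨hx, hc⟩, hok, Or.inr ⟨rfl, Or.inl rfl, ?_⟩⟩, ?_⟩
        · rintro ⟨hM, hcb⟩
          exact hH ⟨(q6 y hx hM).2.1, hcb⟩
        · simp only [mea, hHy, if_false]
          omega
      · have e1 : par X H b (y + 1, c) = (y, !b) := by
          unfold par
          rw [if_neg hH]
          simp [hD, hD']
        have hok : X.ok (y, !b) := ⟨by simp only; omega, Or.inr hD⟩
        have hHy : ¬ (H y ∧ (!b) = b) := fun h => by
          have := h.2
          cases b <;> simp at this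
        rw [e1]
        refine ⟨hok, ⟨⟨hx, hc⟩, hok, Or.inr ⟨rfl, Or.inr (Or.inr hD'), ?_⟩⟩, ?_⟩
        · rintro ⟨hM, hcb⟩
          exact hD' (q6 y hx hM).2.2.2
        · simp only [mea, hHy, if_false]
          omega
    · have e1 : par X H b (y + 1, c) = (y, false) := by
        unfold par
        rw [if_neg hH]
        simp [hD]
      have hok : X.ok (y, false) := ⟨by simp only; omega, Or.inl rfl⟩
      have hHy : ¬ (H y ∧ false = b) := fun h => hD (q1 y (by omega) h.1)
      rw [e1]
      refine ⟨hok, ⟨⟨hx, hc⟩, hok, Or.inr ⟨rfl, Or.inr (Or.inl hD), ?_⟩⟩, ?_⟩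
      · rintro ⟨hM, hcb⟩
        exact hD (q6 y hx hM).2.2.1
      · simp only [mea, hHy, if_false]
        omega

theorem par_adj (p q : ℕ × Bool) (hp : X.ok p) (hq : X.ok q) (h : X.hs b p q) :
    par X H b p = q ∨ par X H b q = p := by
  obtain ⟨x, c⟩ := p
  obtain ⟨y, d⟩ := q
  obtain ⟨hx, hc⟩ := hp
  obtain ⟨hy, hd⟩ := hq
  obtain ⟨h1, h2, h3⟩ := h
  simp only at hx hc hy hd h1 h2 h3
  subst h1
  by_cases hH : H x ∧ c = b
  · left
    obtain ⟨hHx, rfl⟩ := hH
    have hD := q1 x hx hHx
    by_cases hD' : X.D (x + 1)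
    · have : c = d := by
        rcases h2 with h2 | h2 | h2
        · exact h2
        · exact absurd hD h2
        · exact absurd hD' h2
      subst this
      simp [par, hHx, hD']
    · have : d = false := by
        rcases hd with hd | hd
        · exact hd
        · exact absurd hd hD'
      subst this
      simp [par, hHx, hD']
  · right
    have hH' : ¬ (H (x + 1) ∧ d = b) := by
      rintro ⟨k1, rfl⟩
      have hD := q5 x hy k1
      have hD' := q1 _ hy k1
      have hcd : c = d := by
        rcases h2 with h2 | h2 | h2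
        · exact h2
        · exact absurd hD h2
        · exact absurd hD' h2
      subst hcd
      have hHx : ¬ H x := fun k => hH ⟨k, rfl⟩
      exact h3 ⟨q4 x hy hD hHx k1, rfl⟩
    unfold par
    rw [if_neg hH']
    simp only [Nat.add_sub_cancel]
    by_cases hD : X.D x
    · by_cases hD' : X.D (x + 1)
      · have hcd : c = d := by
          rcases h2 with h2 | h2 | h2
          · exact h2
          · exact absurd hD h2
          · exact absurd hD' h2
        simp [hD, hD', hcd]
      · have hHx := q3 x hy hD hD'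
        have hcb : c ≠ b := fun k => hH ⟨hHx, k⟩
        have : c = !b := by cases b <;> cases c <;> simp at hcb ⊢
        simp [hD, hD', this]
    · have : c = false := by
        rcases hc with hc | hc
        · exact hc
        · exact absurd hc hD
      simp [hD, this]

theorem par_root : par X H b (0, false) = (0, false) := by
  have : ¬ (H 0 ∧ false = b) := fun h => h0 (q1 0 (by omega) h.1)
  unfold par
  rw [if_neg this]
  simp [h0]

theorem tree_abs (n : ℕ) (f : Fin n → ℕ × Bool) (hf : Function.Injective f)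
    (hok : ∀ p, X.ok p ↔ ∃ v, f v = p) : ((X.G b).comap f).IsTree := by
  classical
  have pm := par_main X H b h0 hW q1 q2 q3 q4 q5 q6
  have pa := par_adj X H b h0 hW q1 q2 q3 q4 q5 q6
  have pr := par_root X H b h0 hW q1 q2 q3 q4 q5 q6
  obtain ⟨r, hr⟩ := (hok (0, false)).1 ⟨by simp, Or.inl rfl⟩
  have hpar : ∀ v : Fin n, ∃ u : Fin n, f u = par X H b (f v) := by
    intro v
    rw [← hok]
    by_cases hv : f v = (0, false)
    · rw [hv, pr]; exact ⟨by simp, Or.inl rfl⟩
    · exact (pm (f v) ((hok _).2 ⟨v, rfl⟩) hv).1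
  choose P hP using hpar
  have hconn : ((X.G b).comap f).Connected := by
    have hreach : ∀ m : ℕ, ∀ v : Fin n, mea X H b (f v) < m →
        ((X.G b).comap f).Reachable v r := by
      intro m
      induction m with
      | zero => intro v hv; omega
      | succ m ih =>
        intro v hv
        by_cases hvr : f v = (0, false)
        · have : v = r := hf (by rw [hvr, hr])
          subst this
          exact SimpleGraph.Reachable.refl _
        · obtain ⟨k1, k2, k3⟩ := pm (f v) ((hok _).2 ⟨v, rfl⟩) hvr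
          rw [← hP v] at k2 k3
          have hadj : ((X.G b).comap f).Adj v (P v) := k2
          exact hadj.reachable.trans (ih (P v) (by omega))
    haveI : Nonempty (Fin n) := ⟨r⟩
    exact SimpleGraph.Connected.mk (fun v w => (hreach _ v (Nat.lt_succ_self _)).trans
      (hreach _ w (Nat.lt_succ_self _)).symm)
  rw [SimpleGraph.isTree_iff_connected_and_card]
  refine ⟨hconn, ?_⟩
  apply le_antisymm _ hconn.card_vert_le_card_edgeSet_add_one
  have hsub : ((X.G b).comap f).edgeFinset ⊆
      (Finset.univ.erase r).image (fun v => s(v, P v)) := by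
    intro e he
    rw [SimpleGraph.mem_edgeFinset] at he
    induction e with
    | h u v =>
      rw [SimpleGraph.mem_edgeSet] at he
      have he' : (X.G b).Adj (f u) (f v) := he
      have key : P u = v ∨ P v = u := by
        obtain ⟨o1, o2, h | h⟩ := he'
        · rcases pa _ _ o1 o2 h with k | k
          · left; exact hf (by rw [hP u, k])
          · right; exact hf (by rw [hP v, k])
        · rcases pa _ _ o2 o1 h with k | k
          · right; exact hf (by rw [hP v, k])
          · left; exact hf (by rw [hP u, k])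
      have hPr : P r = r := hf (by rw [hP r, hr, pr])
      rw [Finset.mem_image]
      rcases key with k | k
      · refine ⟨u, ?_, by rw [k]⟩
        rw [Finset.mem_erase]
        refine ⟨?_, Finset.mem_univ _⟩
        rintro rfl
        rw [hPr] at k
        subst k
        exact he.ne rfl
      · refine ⟨v, ?_, by rw [k]; exact Sym2.eq_swap⟩
        rw [Finset.mem_erase]
        refine ⟨?_, Finset.mem_univ _⟩
        rintro rfl
        rw [hPr] at k
        subst k
        exact he.ne rfl
  have hcard := (Finset.card_le_card hsub).trans Finset.card_image_le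
  rw [Finset.card_erase_of_mem (Finset.mem_univ r), Finset.card_univ] at hcard
  rw [Nat.card_eq_fintype_card, Nat.card_eq_fintype_card, ← SimpleGraph.edgeFinset_card]
  have : 0 < Fintype.card (Fin n) := Fintype.card_pos_iff.2 ⟨r⟩
  omega

end Abstract

theorem sTREE (h1 : S_FIT1) (_h2 : S_FIT2) (_h3 : S_FIT3) : S_TREE := by
  intro X g F hfit hW hgs hg b n f hf hok
  obtain ⟨hle, hx⟩ := hfit
  obtain ⟨-, -, -, hb⟩ := h1 F g hgs hg
  have hh := hh_facts h1 g hg F hgs 0
  have eD : ∀ x, x ≤ X.W → (X.D x ↔ F.dd 0 x) := fun x hx' => (hx x (by omega) (by omega)).1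
  have eM : ∀ x, x ≤ X.W → (X.M x ↔ F.md 0 x) := fun x hx' => (hx x (by omega) (by omega)).2.1
  refine tree_abs X (F.hh 0) b ?_ ?_ ?_ ?_ ?_ ?_ ?_ ?_ n f hf hok
  · intro h
    rw [eD 0 (by omega)] at h
    have := (hb 0 0).1 h
    omega
  · intro h
    rw [eD _ le_rfl] at h
    have := (hb 0 _).1 h
    omega
  · intro x hx' h
    rw [eD x hx']
    exact (hh x).1 h
  · intro x hx' h k
    rw [eD _ hx'] at k
    exact (hh x).2.1 h k
  · intro x hx' h k
    rw [eD _ (by omega)] at h
    rw [eD _ hx'] at k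
    exact (hh x).2.2.1 h k
  · intro x hx' h k k'
    rw [eD _ (by omega)] at h
    rw [eM _ (by omega)]
    exact (hh x).2.2.2.1 h k k'
  · intro x hx' h
    rw [eD _ (by omega)]
    exact (hh x).2.2.2.2.1 h
  · intro x hx' h
    rw [eM _ (by omega)] at h
    rw [eD _ (by omega), eD _ (by omega)]
    exact (hh x).2.2.2.2.2 h

end Pool.Agent.R88.TG
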