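import Pool.Agent.R88.TG.Stm

/-! Project TG (MP_041baa_co): piece TRG, transfer of a greedy run to `Fin n`. -/

set_option autoImplicit false

namespace Pool.Agent.R88.TG

namespace TRG

lemma reach_fwd (X : Env) (ω : ℕ → Bool) {n : ℕ} (f : Fin n → ℕ × Bool) {s t : ℕ} {v u : Fin n}
    (h : Reach (fun i => (X.G (ω i)).comap f) s v t u) : Reach (X.run ω) s (f v) t (f u) := by
  induction h with
  | refl => exact Reach.refl
  | stay _ ih => exact Reach.stay ih
  | move _ ha ih => exact Reach.move ih ha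

lemma reach_bwd (X : Env) (ω : ℕ → Bool) {n : ℕ} (f : Fin n → ℕ × Bool)
    (hok : ∀ p, X.ok p ↔ ∃ v, f v = p) {s t : ℕ} {v : Fin n} {q : ℕ × Bool}
    (h : Reach (X.run ω) s (f v) t q) :
    ∃ u, f u = q ∧ Reach (fun i => (X.G (ω i)).comap f) s v t u := by
  induction h with
  | refl => exact ⟨v, rfl, Reach.refl⟩
  | stay _ ih =>
    obtain ⟨u, hu, hr⟩ := ih
    exact ⟨u, hu, Reach.stay hr⟩
  | @move t p w _ ha ih =>
    obtain ⟨u, hu, hr⟩ := ih
    obtain ⟨w', hw'⟩ := (hok w).1 ha.2.1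
    refine ⟨w', hw', Reach.move hr ?_⟩
    show (X.G (ω (t + 1))).Adj (f u) (f w')
    rw [hu, hw']
    exact ha

end TRG

theorem sTRG : S_TRG := by
  intro X ω n f hf hok v₀ S v t h
  induction h with
  | start =>
    refine ⟨v₀, rfl, ?_⟩
    have e : f ⁻¹' {f v₀} = {v₀} := by
      ext x
      simp [hf.eq_iff]
    rw [e]
    exact Greedy.start
  | @next S v u s t _ hu hr hbef hmin ih =>
    obtain ⟨v', rfl, hg⟩ := ih
    obtain ⟨u', rfl, hr'⟩ := TRG.reach_bwd X ω f hok hr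
    refine ⟨u', rfl, ?_⟩
    have e : f ⁻¹' (insert (f u') S) = insert u' (f ⁻¹' S) := by
      ext x
      simp [hf.eq_iff]
    rw [e]
    refine Greedy.next hg hu hr' ?_ ?_
    · intro t' ht' w hw hc
      exact hbef t' ht' (f w) hw (TRG.reach_fwd X ω f hc)
    · intro w hw hc
      exact hmin (f w) hw (TRG.reach_fwd X ω f hc)

end Pool.Agent.R88.TG
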