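import Pool.Agent.R88.TG.Stm

/-!
# Greedy step out of a visited shape to the left (project TG, MP_041baa_co)
-/

set_option autoImplicit false

namespace Pool.Agent.R88.TG.TRVL

theorem adj_fst {X : Env} {b : Bool} {u w : ℕ × Bool} (h : (X.G b).Adj u w) :
    w.1 = u.1 + 1 ∨ u.1 = w.1 + 1 := by
  obtain ⟨-, -, h | h⟩ := h
  · exact Or.inl h.1
  · exact Or.inr h.1

theorem adj_snd {X : Env} {b : Bool} {u w : ℕ × Bool} (h : (X.G b).Adj u w) :
    u.2 = w.2 ∨ ¬ X.D u.1 ∨ ¬ X.D w.1 := by
  obtain ⟨-, -, h | h⟩ := h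
  · exact h.2.1
  · rcases h.2.1 with h | h | h
    · exact Or.inl h.symm
    · exact Or.inr (Or.inr h)
    · exact Or.inr (Or.inl h)

theorem reach_basic {X : Env} {ω : ℕ → Bool} {s : ℕ} {v : ℕ × Bool} {t : ℕ} {u : ℕ × Bool}
    (h : Reach (X.run ω) s v t u) :
    s ≤ t ∧ u.1 ≤ v.1 + (t - s) ∧ v.1 ≤ u.1 + (t - s) ∧ (X.ok u ∨ u = v) := by
  induction h with
  | refl => exact ⟨le_rfl, by omega, by omega, Or.inr rfl⟩
  | stay _ ih => exact ⟨by omega, by omega, by omega, ih.2.2.2⟩
  | move _ hadj ih =>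
    have h1 := adj_fst hadj
    exact ⟨by omega, by omega, by omega, Or.inl hadj.2.1⟩

theorem cross {X : Env} {ω : ℕ → Bool} {s p e l : ℕ} {v : ℕ × Bool} {t : ℕ} {w : ℕ × Bool}
    (hA : X.ArcAt p e) (hl : p + e = l) (_he : 2 ≤ e) (hv : l ≤ v.1)
    (h : Reach (X.run ω) s v t w) : w.1 < l → t < s + (v.1 - l) + e →
      p < w.1 ∧ (w.2 = false ∨ (w.2 = true ∧ ∃ t' ≤ t, Reach (X.run ω) s v t' (l - 1, true) ∧
        (l - 1) ≤ w.1 + (t - t'))) := by
  induction h with
  | refl => intro h1; omega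
  | @stay t u hr ih =>
    intro h1 h2
    obtain ⟨h3, h4⟩ := ih h1 (by omega)
    refine ⟨h3, ?_⟩
    rcases h4 with h4 | ⟨h4, t', h5, h6, h7⟩
    · exact Or.inl h4
    · exact Or.inr ⟨h4, t', by omega, h6, by omega⟩
  | @move t u w hr hadj ih =>
    intro h1 h2
    have hb := reach_basic (Reach.move hr hadj)
    have hpw : p < w.1 := by omega
    refine ⟨hpw, ?_⟩
    by_cases hw : w.2 = false
    · exact Or.inl hw
    have hw' : w.2 = true := by
      cases h : w.2
      · exact absurd h hw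
      · rfl
    refine Or.inr ⟨hw', ?_⟩
    have hf := adj_fst hadj
    by_cases hu : l ≤ u.1
    · have h3 : w = (l - 1, true) := by
        ext
        · show w.1 = l - 1
          omega
        · exact hw'
      refine ⟨t + 1, le_rfl, ?_, ?_⟩
      · rw [← h3]
        exact Reach.move hr hadj
      · rw [h3]
        simp
    · obtain ⟨h3, h4⟩ := ih (by omega) (by omega)
      have hDw : X.D w.1 := hA.inner w.1 hpw (by omega)
      have hDu : X.D u.1 := hA.inner u.1 h3 (by omega)
      have hs : u.2 = w.2 := by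
        rcases adj_snd hadj with h | h | h
        · exact h
        · exact absurd hDu h
        · exact absurd hDw h
      rcases h4 with h4 | ⟨h4, t', h5, h6, h7⟩
      · rw [hs, hw'] at h4
        exact absurd h4 (by decide)
      · exact ⟨t', by omega, h6, by omega⟩

end Pool.Agent.R88.TG.TRVL

namespace Pool.Agent.R88.TG

open TRVL in
theorem sTRVL (_h1 : S_FIT1) (hMV : S_MV) : S_TRVL := by
  classical
  intro X ω R T g F l p e hG hX hg hR hge hA hl x₀ i v₀ S s hT hgr hok hlx hxr hvis hfal htru hmar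
  have hexp : R * (F.nd + 3) = R * F.nd + 3 * R := by ring
  obtain ⟨-, t₁, ht₁, hr₁⟩ := hMV X ω R T g F l hG hX hg (by omega) x₀ i s hok hlx hxr (by omega)
  have he10 : 10 ≤ e := by omega
  have hnot : (l - 1, true) ∉ S := htru (l - 1) (by omega) (by omega)
  have hadj : ∀ b, (X.G b).Adj (l, false) (l - 1, true) := by
    intro b
    refine ⟨⟨?_, Or.inl rfl⟩, ⟨?_, Or.inr ?_⟩, Or.inr ⟨?_, Or.inr (Or.inr ?_), ?_⟩⟩
    · have := hA.leW
      show l ≤ X.W
      omega
    · have := hA.leW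
      show l - 1 ≤ X.W
      omega
    · exact hA.inner (l - 1) (by omega) (by omega)
    · show l = l - 1 + 1
      omega
    · show ¬ X.D l
      rw [← hl]
      exact hA.right
    · rintro ⟨h, -⟩
      have := (hA.mid (l - 1) (by omega) (by omega)).1 h
      omega
  have hr₂ : Reach (X.run ω) s (x₀, i) (t₁ + 1) (l - 1, true) :=
    Reach.move hr₁ (hadj (ω (t₁ + 1)))
  have hex : ∃ t, ∃ w, w ∉ S ∧ Reach (X.run ω) s (x₀, i) t w := ⟨t₁ + 1, _, hnot, hr₂⟩
  set t := Nat.find hex with ht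
  have htle : t ≤ t₁ + 1 := Nat.find_min' hex ⟨_, hnot, hr₂⟩
  have hmin : ∀ t' < t, ∀ w, w ∉ S → ¬ Reach (X.run ω) s (x₀, i) t' w := by
    intro t' ht' w hw hr
    exact Nat.find_min hex ht' ⟨w, hw, hr⟩
  have huniq : ∀ w, w ∉ S → Reach (X.run ω) s (x₀, i) t w → w = (l - 1, true) := by
    intro w hw hr
    have hb := reach_basic hr
    have hokw : X.ok w := by
      rcases hb.2.2.2 with h | h
      · exact h
      · rw [h]
        exact hok
    have h1 : w.1 ≤ x₀ + (t - s) := hb.2.1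
    have h2 : x₀ ≤ w.1 + (t - s) := hb.2.2.1
    have h3 : w.1 < l := by
      by_contra h
      exact hw (hvis w hokw (by omega) (by omega))
    obtain ⟨h4, h5⟩ := cross hA hl (by omega) (v := (x₀, i)) hlx hr h3 (by
      show t < s + (x₀ - l) + e
      omega)
    rcases h5 with h5 | ⟨h5, t', h6, h7, h8⟩
    · exact absurd (show w ∈ S by
        have := hfal w.1 h4 h3
        rw [← h5] at this
        exact this) hw
    · have h9 : t' = t := by
        by_contra h
        exact hmin t' (by omega) _ hnot h7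
      ext
      · show w.1 = l - 1
        omega
      · exact h5
  obtain ⟨w, hw, hr⟩ := Nat.find_spec hex
  have hwe := huniq w hw hr
  have hrt : Reach (X.run ω) s (x₀, i) t (l - 1, true) := by
    rw [← hwe]
    exact hr
  have hb := reach_basic hrt
  refine ⟨t, ?_, by omega, Greedy.next hgr hnot hrt hmin ?_⟩
  · have h1 : x₀ ≤ (l - 1) + (t - s) := hb.2.2.1
    omega
  · intro w' hw' hr'
    rw [huniq w' hw' hr']

end Pool.Agent.R88.TG
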