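import Pool.Agent.R88.TG.Stm

/-!
# TG-TRVR: greedy step out of a visited shape to the right
-/

set_option autoImplicit false

namespace Pool.Agent.R88.TG

namespace TRVR

theorem adj_pos {X : Env} {b : Bool} {p q : ℕ × Bool} (h : (X.G b).Adj p q) :
    q.1 = p.1 + 1 ∨ p.1 = q.1 + 1 := by
  obtain ⟨-, -, h | h⟩ := h
  · exact Or.inl h.1
  · exact Or.inr h.1

theorem reach_le {X : Env} {ω : ℕ → Bool} {s : ℕ} {v : ℕ × Bool} {t : ℕ} {w : ℕ × Bool}
    (h : Reach (X.run ω) s v t w) :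
    s ≤ t ∧ w.1 ≤ v.1 + (t - s) ∧ v.1 ≤ w.1 + (t - s) ∧ (X.ok w ∨ w = v) := by
  induction h with
  | refl => exact ⟨le_rfl, by omega, by omega, Or.inr rfl⟩
  | stay _ ih =>
    obtain ⟨h1, h2, h3, h4⟩ := ih
    exact ⟨by omega, by omega, by omega, h4⟩
  | move _ hadj ih =>
    obtain ⟨h1, h2, h3, h4⟩ := ih
    have h5 := adj_pos hadj
    exact ⟨by omega, by omega, by omega, Or.inl hadj.2.1⟩

theorem edge {X : Env} {r : ℕ} (hM : ¬ X.M r) (hW : r + 1 ≤ X.W) (b : Bool) :
    (X.G b).Adj (r, false) (r + 1, false) :=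
  ⟨⟨by show r ≤ X.W; omega, Or.inl rfl⟩, ⟨hW, Or.inl rfl⟩,
    Or.inl ⟨rfl, Or.inl rfl, fun h => hM h.1⟩⟩

theorem cross {X : Env} {ω : ℕ → Bool} {s : ℕ} {v : ℕ × Bool} {r : ℕ} (hD : ¬ X.D r)
    (hM : ¬ X.M r) (hW : r + 1 ≤ X.W) (hv : v.1 ≤ r) {t : ℕ} {w : ℕ × Bool}
    (h : Reach (X.run ω) s v t w) (hw : r + 1 ≤ w.1) :
    ∃ t', t' ≤ t ∧ Reach (X.run ω) s v t' (r + 1, false) ∧ w.1 - (r + 1) ≤ t - t' := by
  induction h with
  | refl => exact absurd hw (by omega)
  | stay _ ih =>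
    obtain ⟨t', h1, h2, h3⟩ := ih hw
    exact ⟨t', by omega, h2, by omega⟩
  | @move t u w hr hadj ih =>
    have h5 := adj_pos hadj
    by_cases hu : r + 1 ≤ u.1
    · obtain ⟨t', h1, h2, h3⟩ := ih hu
      exact ⟨t', by omega, h2, by omega⟩
    · have hur : u.1 = r := by omega
      have hu2 : u.2 = false := by
        rcases hadj.1.2 with h | h
        · exact h
        · rw [hur] at h
          exact absurd h hD
      have hu3 : u = (r, false) := Prod.ext hur hu2
      rw [hu3] at hr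
      exact ⟨t + 1, le_rfl, Reach.move hr (edge hM hW _), by omega⟩

end TRVR

open TRVR

theorem sTRVR (h1 : S_FIT1) (hMV : S_MV) : S_TRVR := by
  intro X ω R T g F l hGood hFit hgs hg x₀ i v₀ S s hT hGr hok hl hr hvis hunv hW hmar
  classical
  have hg10 : 10 ≤ g := by
    have : 0 ≤ R * (F.nd + 3) := Nat.zero_le _
    omega
  have hRnd : R * F.nd < g := by
    have : R * F.nd ≤ R * (F.nd + 3) := Nat.mul_le_mul_left R (by omega)
    omega
  obtain ⟨-, -, -, hF⟩ := h1 F g hgs hg10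
  set r := l + F.wd with hrdef
  have hD : ¬ X.D r := by
    intro h
    have h2 := ((hFit.2 r (by omega) le_rfl).1).mp h
    have h3 := (hF l r).1 h2
    omega
  have hM : ¬ X.M r := by
    intro h
    have h2 := ((hFit.2 r (by omega) le_rfl).2.1).mp h
    have h3 := (hF l r).2.1 h2
    omega
  obtain ⟨⟨t1, ht1, hre1⟩, -⟩ := hMV X ω R T g F l hGood hFit hgs hg10 x₀ i s hok hl hr (by omega)
  have hreach : Reach (X.run ω) s (x₀, i) (t1 + 1) (r + 1, false) :=
    Reach.move hre1 (edge hM hW _)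
  have hex : ∃ t, ∃ w, w ∉ S ∧ Reach (X.run ω) s (x₀, i) t w :=
    ⟨t1 + 1, (r + 1, false), hunv false, hreach⟩
  obtain ⟨w, hwS, hw⟩ := Nat.find_spec hex
  have hmin : ∀ t' < Nat.find hex, ∀ w, w ∉ S → ¬ Reach (X.run ω) s (x₀, i) t' w := by
    intro t' ht' w hw hre
    exact Nat.find_min hex ht' ⟨w, hw, hre⟩
  have hfind : Nat.find hex ≤ t1 + 1 := Nat.find_le ⟨(r + 1, false), hunv false, hreach⟩
  -- every unvisited vertex reached at the first time is at `r + 1`
  have key : ∀ w, w ∉ S → Reach (X.run ω) s (x₀, i) (Nat.find hex) w →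
      w.1 = r + 1 ∧ Reach (X.run ω) s (x₀, i) (Nat.find hex) (r + 1, false) := by
    intro w hwS hw
    obtain ⟨e1, e2, e3, e4⟩ := reach_le hw
    have hokw : X.ok w := by
      rcases e4 with h | h
      · exact h
      · rw [h]
        exact hok
    by_cases hwr : r + 1 ≤ w.1
    · obtain ⟨t', f1, f2, f3⟩ := cross hD hM hW (by exact hr) hw hwr
      have f4 : ¬ t' < Nat.find hex := fun h => hmin t' h _ (hunv false) f2
      have f5 : t' = Nat.find hex := by omega
      rw [f5] at f2 f3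
      exact ⟨by omega, f2⟩
    · exfalso
      by_cases hwl : l ≤ w.1
      · exact hwS (hvis w hokw hwl (by omega))
      · simp only at e3
        omega
  obtain ⟨k1, k2⟩ := key w hwS hw
  obtain ⟨e1, e2, e3, -⟩ := reach_le k2
  simp only at e2 e3
  refine ⟨Nat.find hex, by omega, by omega, ?_⟩
  refine Greedy.next hGr (hunv false) k2 hmin ?_
  intro w' hw'S hw'
  obtain ⟨g1, -⟩ := key w' hw'S hw'
  unfold Env.rk
  rw [g1]
  simp

end Pool.Agent.R88.TG
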