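import Pool.Agent.R88.TG.Asm

set_option autoImplicit false

namespace Pool.Agent.R88.TG

theorem greedy_ncard {V : Type} [Finite V] {𝒢 : ℕ → SimpleGraph V} {rk : V → ℕ} {v₀ : V}
    {S : Set V} {v : V} {t : ℕ} (h : Greedy 𝒢 rk v₀ S v t) : 1 ≤ S.ncard :=
  (Set.ncard_pos S.toFinite).2 ⟨v, greedy_mem h⟩

/-- With an injective rank the greedy run is unique. -/
theorem greedy_unique {V : Type} [Finite V] {𝒢 : ℕ → SimpleGraph V} {rk : V → ℕ} {v₀ : V}
    (hrk : Function.Injective rk) {S : Set V} {v : V} {t : ℕ} (h : Greedy 𝒢 rk v₀ S v t) :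
    ∀ {S' : Set V} {v' : V} {t' : ℕ}, Greedy 𝒢 rk v₀ S' v' t' → S.ncard = S'.ncard →
      S = S' ∧ v = v' ∧ t = t' := by
  induction h with
  | start =>
    intro S' v' t' h' hc
    cases h' with
    | start => exact ⟨rfl, rfl, rfl⟩
    | next h1 h2 h3 h4 h5 =>
      exfalso
      rw [Set.ncard_singleton, Set.ncard_insert_of_notMem h2 (Set.toFinite _)] at hc
      have := greedy_ncard h1
      omega
  | @next S v u s t g1 g2 g3 g4 g5 ih =>
    intro S' v' t' h' hc
    cases h' with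
    | start =>
      exfalso
      rw [Set.ncard_singleton, Set.ncard_insert_of_notMem g2 (Set.toFinite _)] at hc
      have := greedy_ncard g1
      omega
    | @next S₁ v₁ _ s₁ _ h1 h2 h3 h4 h5 =>
      rw [Set.ncard_insert_of_notMem g2 (Set.toFinite _),
        Set.ncard_insert_of_notMem h2 (Set.toFinite _)] at hc
      obtain ⟨rfl, rfl, rfl⟩ := ih h1 (by omega)
      have ht : t = t' := by
        rcases lt_trichotomy t t' with h | h | h
        · exact absurd g3 (h4 t h u g2)
        · exact h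
        · exact absurd h3 (g4 t' h v' h2)
      subst ht
      have hu : u = v' := hrk (le_antisymm (g5 _ h2 h3) (h5 _ g2 g3))
      subst hu
      exact ⟨rfl, rfl, rfl⟩

theorem greedyTime_unique {V : Type} [Finite V] {𝒢 : ℕ → SimpleGraph V} {rk : V → ℕ} {v₀ : V}
    (hrk : Function.Injective rk) {τ τ' : ℕ} (h : GreedyTime 𝒢 rk v₀ τ)
    (h' : GreedyTime 𝒢 rk v₀ τ') : τ = τ' := by
  obtain ⟨v, hv⟩ := h
  obtain ⟨v', hv'⟩ := h'
  exact (greedy_unique hrk hv hv' rfl).2.2

end Pool.Agent.R88.TG
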